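import Pool.Agent.Q173.HS.Weight

/-!
# Averaging and exhaustion by invariant compact sets
-/

set_option autoImplicit false

open MeasureTheory Complex Filter Topology Metric Set
open scoped ComplexConjugate

namespace Pool.Agent.Q173.HS

variable {n : ℕ}

instance : IsFiniteMeasureOnCompacts (muG n) := inferInstance

theorem continuousOn_av {K : Set (Fin n → ℂ)} (hK : IsCompact K) (hKI : Inv K)
    {a : (Fin n → ℂ) → ℂ} (ha : ContinuousOn a K) {z : Fin n → ℂ} (hz : z ∈ K) :
    Continuous fun t : G n => a (rot t z) :=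
  ha.comp_continuous (continuous_rot.comp (continuous_id.prodMk continuous_const)) fun t => hKI t z hz

/-- averaging over the torus -/
theorem avg {K : Set (Fin n → ℂ)} (hK : IsCompact K) (hKI : Inv K)
    {φ a : (Fin n → ℂ) → ℂ} (hφ : ContinuousOn φ K) (ha : ContinuousOn a K) (β : Fin n → ℤ)
    (hw : ∀ t : G n, ∀ z ∈ K, φ (rot t z) = chi β t * φ z) :
    ∫ z in K, conj (φ z) * a z = ∫ z in K, conj (φ z) * av β a z := by
  have h1 : ∀ t : G n, ∫ z in K, conj (φ z) * a z =
      ∫ z in K, conj (φ z) * (chi (-β) t * a (rot t z)) := by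
    intro t
    rw [← setIntegral_rot hKI t (fun z => conj (φ z) * a z)]
    refine setIntegral_congr_fun hK.measurableSet fun z hz => ?_
    rw [hw t z hz, map_mul, chi_neg]
    ring
  have h2 : ∫ z in K, conj (φ z) * a z =
      ∫ t, (∫ z in K, conj (φ z) * (chi (-β) t * a (rot t z))) ∂(muG n) := by
    have : (fun t : G n => ∫ z in K, conj (φ z) * (chi (-β) t * a (rot t z))) =
        fun _ => ∫ z in K, conj (φ z) * a z := funext fun t => (h1 t).symm
    rw [this, integral_const]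
    simp
  rw [h2]
  have hint : Integrable (Function.uncurry fun (t : G n) (z : Fin n → ℂ) =>
      conj (φ z) * (chi (-β) t * a (rot t z))) ((muG n).prod (volume.restrict K)) := by
    have e : (muG n).prod (volume.restrict K) =
        ((muG n).prod (volume : Measure (Fin n → ℂ))).restrict (univ ×ˢ K) := by
      rw [← Measure.prod_restrict, Measure.restrict_univ]
    rw [e]
    apply ContinuousOn.integrableOn_compact (isCompact_univ.prod hK)
    have c1 : ContinuousOn (fun p : G n × (Fin n → ℂ) => conj (φ p.2)) (univ ×ˢ K) :=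
      continuous_conj.comp_continuousOn (hφ.comp continuousOn_snd fun p hp => hp.2)
    have c2 : ContinuousOn (fun p : G n × (Fin n → ℂ) => chi (-β) p.1) (univ ×ˢ K) :=
      ((continuous_chi (-β)).comp continuous_fst).continuousOn
    have c3 : ContinuousOn (fun p : G n × (Fin n → ℂ) => a (rot p.1 p.2)) (univ ×ˢ K) :=
      ha.comp continuous_rot.continuousOn fun p hp => hKI p.1 p.2 hp.2
    exact c1.mul (c2.mul c3)
  rw [integral_integral_swap hint]
  refine setIntegral_congr_fun hK.measurableSet fun z hz => ?_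
  rw [integral_const_mul]
  rfl

/-- exhaustion -/
def KK (Ω : Set (Fin n → ℂ)) (N : ℕ) : Set (Fin n → ℂ) :=
  {z | (∀ j, (1 : ℝ) / (N + 1) ≤ ‖z j‖) ∧ (1 : ℝ) / (N + 1) ≤ infDist z Ωᶜ}

theorem KK_sub (Ω : Set (Fin n → ℂ)) (N : ℕ) : KK Ω N ⊆ Ω ∩ star n := by
  rintro z ⟨h1, h2⟩
  have hp : (0 : ℝ) < 1 / (N + 1) := by positivity
  refine ⟨?_, fun j => ?_⟩
  · by_contra h
    have : infDist z Ωᶜ = 0 := infDist_zero_of_mem h
    linarith
  · intro h
    have := h1 j
    rw [h, norm_zero] at this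
    linarith

theorem isClosed_KK (Ω : Set (Fin n → ℂ)) (N : ℕ) : IsClosed (KK Ω N) := by
  have : KK Ω N = (⋂ j, {z : Fin n → ℂ | (1 : ℝ) / (N + 1) ≤ ‖z j‖}) ∩
      {z | (1 : ℝ) / (N + 1) ≤ infDist z Ωᶜ} := by
    ext z; simp [KK]
  rw [this]
  refine IsClosed.inter (isClosed_iInter fun j => ?_) ?_
  · exact isClosed_le continuous_const (continuous_apply j).norm
  · exact isClosed_le continuous_const (continuous_infDist_pt _)

theorem isCompact_KK {Ω : Set (Fin n → ℂ)} (hb : Bornology.IsBounded Ω) (N : ℕ) :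
    IsCompact (KK Ω N) :=
  Metric.isCompact_of_isClosed_isBounded (isClosed_KK Ω N)
    (hb.subset fun _ hz => (KK_sub Ω N hz).1)

theorem Inv.compl {Ω : Set (Fin n → ℂ)} (h : Inv Ω) : Inv Ωᶜ := fun t z hz hz' =>
  hz ((h.iff t z).1 hz')

theorem Inv.image {Ω : Set (Fin n → ℂ)} (h : Inv Ω) (t : G n) : rot t '' Ω = Ω := by
  ext z
  constructor
  · rintro ⟨w, hw, rfl⟩
    exact h t w hw
  · intro hz
    exact ⟨rot (-t) z, h (-t) z hz, by rw [← rot_add, add_neg_cancel, rot_zero]⟩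

theorem inv_KK {Ω : Set (Fin n → ℂ)} (hI : Inv Ω) (N : ℕ) : Inv (KK Ω N) := by
  rintro t z ⟨h1, h2⟩
  refine ⟨fun j => by rw [norm_rot_coord]; exact h1 j, ?_⟩
  have hiso : Isometry (rot t) := Isometry.of_dist_eq (dist_rot t)
  have := infDist_image (x := z) (t := Ωᶜ) hiso
  rw [hI.compl.image t] at this
  rw [this]
  exact h2

theorem mem_KK_eventually {Ω : Set (Fin n → ℂ)} (hΩ : IsOpen Ω) (hne : Ωᶜ.Nonempty)
    {z : Fin n → ℂ} (hz : z ∈ Ω ∩ star n) : ∀ᶠ N : ℕ in atTop, z ∈ KK Ω N := by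
  have hd : 0 < infDist z Ωᶜ := by
    rw [← hΩ.isClosed_compl.notMem_iff_infDist_pos hne]
    exact fun h => h hz.1
  have h1 : ∀ j, ∀ᶠ N : ℕ in atTop, (1 : ℝ) / (N + 1) ≤ ‖z j‖ := by
    intro j
    have := tendsto_one_div_add_atTop_nhds_zero_nat (𝕜 := ℝ)
    exact (this.eventually_lt_const (norm_pos_iff.2 (hz.2 j))).mono fun N h => h.le
  have h2 : ∀ᶠ N : ℕ in atTop, (1 : ℝ) / (N + 1) ≤ infDist z Ωᶜ := by
    have := tendsto_one_div_add_atTop_nhds_zero_nat (𝕜 := ℝ)
    exact (this.eventually_lt_const hd).mono fun N h => h.le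
  filter_upwards [eventually_all.2 h1, h2] with N a b
  exact ⟨a, b⟩

theorem cover {Ω : Set (Fin n → ℂ)} (hΩ : IsOpen Ω) (hne : Ωᶜ.Nonempty) :
    AECover (volume.restrict Ω) atTop (KK Ω) where
  ae_eventually_mem := by
    rw [ae_restrict_iff' hΩ.measurableSet]
    filter_upwards [star_ae] with z hz hzΩ
    exact mem_KK_eventually hΩ hne ⟨hzΩ, hz⟩
  measurableSet N := (isClosed_KK Ω N).measurableSet

theorem restrict_KK (Ω : Set (Fin n → ℂ)) (N : ℕ) :
    (volume.restrict Ω).restrict (KK Ω N) = volume.restrict (KK Ω N) := by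
  rw [Measure.restrict_restrict (isClosed_KK Ω N).measurableSet,
    Set.inter_eq_left.2 fun z hz => (KK_sub Ω N hz).1]

/-- squared norm of a monomial on `K` -/
noncomputable def AK (K : Set (Fin n → ℂ)) (β : Fin n → ℤ) : ℝ := ∫ z in K, ‖mon β z‖ ^ 2

theorem integrableOn_sq {K : Set (Fin n → ℂ)} (hK : IsCompact K) (hs : K ⊆ star n)
    (β : Fin n → ℤ) : IntegrableOn (fun z => ‖mon β z‖ ^ 2) K :=
  ContinuousOn.integrableOn_compact hK (((continuousOn_mon β).mono hs).norm.pow 2)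

theorem memLp_sq (Ω : Set (Fin n → ℂ)) (β : Fin n → ℤ) :
    MemLp (mon β) 2 (volume.restrict Ω) ↔
      Integrable (fun z => ‖mon β z‖ ^ 2) (volume.restrict Ω) :=
  memLp_two_iff_integrable_sq_norm (measurable_mon β).aestronglyMeasurable

theorem integrable_of_bdd {Ω : Set (Fin n → ℂ)} (hΩ : IsOpen Ω) (hb : Bornology.IsBounded Ω)
    (hne : Ωᶜ.Nonempty) (β : Fin n → ℤ) (C : ℝ) (hC : ∀ᶠ N in atTop, AK (KK Ω N) β ≤ C) :
    Integrable (fun z => ‖mon β z‖ ^ 2) (volume.restrict Ω) := by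
  apply (cover hΩ hne).integrable_of_integral_bounded_of_nonneg_ae C
  · intro N
    rw [IntegrableOn, restrict_KK]
    exact integrableOn_sq (isCompact_KK hb N) (fun z hz => (KK_sub Ω N hz).2) β
  · exact Eventually.of_forall fun z => by positivity
  · filter_upwards [hC] with N hN
    rw [restrict_KK]
    exact hN

theorem AK_tendsto {Ω : Set (Fin n → ℂ)} (hΩ : IsOpen Ω) (hne : Ωᶜ.Nonempty) (β : Fin n → ℤ)
    (h : Integrable (fun z => ‖mon β z‖ ^ 2) (volume.restrict Ω)) :
    Tendsto (fun N => AK (KK Ω N) β) atTop (𝓝 (AK Ω β)) := by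
  have := (cover hΩ hne).integral_tendsto_of_countably_generated h
  simp only [restrict_KK] at this
  exact this

theorem AK_pos {Ω : Set (Fin n → ℂ)} (hΩ : IsOpen Ω) (hne : Ω.Nonempty) (β : Fin n → ℤ)
    (h : Integrable (fun z => ‖mon β z‖ ^ 2) (volume.restrict Ω)) : 0 < AK Ω β := by
  unfold AK
  rw [setIntegral_pos_iff_support_of_nonneg_ae (Eventually.of_forall fun z => by positivity) h]
  have h1 : Ω ∩ star n ⊆ Function.support (fun z => ‖mon β z‖ ^ 2) ∩ Ω := by
    rintro z ⟨h1, h2⟩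
    refine ⟨?_, h1⟩
    rw [Function.mem_support]
    exact pow_ne_zero _ (norm_ne_zero_iff.2 (mon_ne h2))
  refine lt_of_lt_of_le ?_ (measure_mono h1)
  exact (hΩ.inter isOpen_star).measure_pos volume (exists_star hΩ hne)

theorem AK_le {Ω : Set (Fin n → ℂ)} (β : Fin n → ℤ) (N : ℕ)
    (h : Integrable (fun z => ‖mon β z‖ ^ 2) (volume.restrict Ω)) : AK (KK Ω N) β ≤ AK Ω β := by
  unfold AK
  exact setIntegral_mono_set h (Eventually.of_forall fun z => by positivity)
    (Eventually.of_forall fun z hz => (KK_sub Ω N hz).1)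

end Pool.Agent.Q173.HS
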