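import Pool.Agent.Q173.HS.Line

/-!
# Conclusion
-/

set_option autoImplicit false

open MeasureTheory Complex Filter Topology Metric Set
open scoped ComplexConjugate

namespace Pool.Agent.Q173.HS

variable {n : ℕ}

/-- if all nonzero weight components vanish then `f` is constant off the coordinate hyperplanes -/
theorem const_of_coeff {Ω : Set (Fin n → ℂ)} (hI : Inv Ω) {f : (Fin n → ℂ) → ℂ}
    (hf : ContinuousOn f Ω) {c₀ : ℂ} (h0 : ∀ z ∈ Ω ∩ star n, av 0 f z = c₀)
    (h : ∀ γ : Fin n → ℤ, γ ≠ 0 → ∀ z ∈ Ω ∩ star n, av γ f z = 0) :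
    ∀ z ∈ Ω ∩ star n, f z = c₀ := by
  intro z hz
  have hcont : Continuous fun t : G n => f (rot t z) :=
    hf.comp_continuous (continuous_rot.comp (continuous_id.prodMk continuous_const))
      fun t => hI t z hz.1
  set F : C(UnitAddTorus (Fin n), ℂ) := ⟨fun t => f (rot t z), hcont⟩ with hF
  have hco : ∀ γ : Fin n → ℤ, UnitAddTorus.mFourierCoeff F γ = if γ = 0 then c₀ else 0 := by
    intro γ
    have e : UnitAddTorus.mFourierCoeff F γ = av γ f z := rfl
    rw [e]
    split_ifs with h1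
    · rw [h1]; exact h0 z hz
    · exact h γ h1 z hz
  have hsum : Summable (UnitAddTorus.mFourierCoeff F) := by
    apply summable_of_ne_finset_zero (s := {0})
    intro γ hγ
    rw [hco, if_neg (by simpa using hγ)]
  have h1 := UnitAddTorus.hasSum_mFourier_series_apply_of_summable hsum (0 : UnitAddTorus (Fin n))
  have h2 : HasSum (fun i => UnitAddTorus.mFourierCoeff F i • UnitAddTorus.mFourier i
      (0 : UnitAddTorus (Fin n))) c₀ := by
    have h3 : ∀ i, i ≠ 0 → UnitAddTorus.mFourierCoeff F i • UnitAddTorus.mFourier i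
        (0 : UnitAddTorus (Fin n)) = 0 := by
      intro i hi
      rw [hco, if_neg hi, zero_smul]
    have h4 := hasSum_single (0 : Fin n → ℤ) h3
    rw [hco, if_pos rfl] at h4
    have h5 : UnitAddTorus.mFourier (0 : Fin n → ℤ) (0 : UnitAddTorus (Fin n)) = 1 := by
      rw [UnitAddTorus.mFourier_zero]; rfl
    rwa [h5, smul_eq_mul, mul_one] at h4
  have h6 : F (0 : UnitAddTorus (Fin n)) = f z := by
    change f (rot 0 z) = f z
    rw [rot_zero]
  rw [← h6]
  exact h1.unique h2

/-- if `f` is constant then the Hankel operator vanishes -/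
theorem zero_of_const {Ω : Set (Fin n → ℂ)} {f : (Fin n → ℂ) → ℂ} {T : bergman Ω →L[ℂ] L2 Ω}
    (hΩ : IsOpen Ω) (hT : IsHankel Ω (fun z => conj (f z)) T) {c₀ : ℂ}
    (h : ∀ z ∈ Ω ∩ star n, f z = c₀) : T = 0 := by
  have hae : ∀ᵐ z ∂(volume.restrict Ω), f z = c₀ := by
    rw [ae_restrict_iff' hΩ.measurableSet]
    filter_upwards [star_ae] with z hz hzΩ
    exact h z ⟨hzΩ, hz⟩
  have key : ∀ u ∈ hankelDomain Ω (fun z => conj (f z)), T u = 0 := by
    intro u hu
    obtain ⟨w, hw, hw2⟩ := hT.diff u hu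
    have hTu : T u = (conj c₀) • (u : L2 Ω) - w := by
      apply Lp.ext
      filter_upwards [hae, hw2, Lp.coeFn_sub ((conj c₀) • (u : L2 Ω)) w,
        Lp.coeFn_smul (conj c₀) (u : L2 Ω)] with z h1 h2 h3 h4
      rw [h3, Pi.sub_apply, h4, Pi.smul_apply, smul_eq_mul, ← h1, h2, add_sub_cancel_right]
    have hmem : T u ∈ bergman Ω := by
      rw [hTu]
      exact (bergman Ω).sub_mem ((bergman Ω).smul_mem _ u.2) hw
    exact inner_self_eq_zero.1 (hT.orth u hu (T u) hmem)
  have h1 : (T : bergman Ω → L2 Ω) = fun _ => 0 :=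
    Continuous.ext_on hT.dense T.continuous continuous_const fun u hu => key u hu
  ext1 u
  exact congrFun h1 u

theorem mon_update {γ : Fin n → ℤ} {p : Fin n → ℂ} (i : Fin n) (s : ℂ) :
    mon γ (Function.update p i (s * p i)) = s ^ γ i * mon γ p := by
  unfold mon
  rw [← Finset.mul_prod_erase _ _ (Finset.mem_univ i), ← Finset.mul_prod_erase Finset.univ
    (fun j => p j ^ γ j) (Finset.mem_univ i), Function.update_self, mul_zpow, mul_assoc]
  congr 2
  refine Finset.prod_congr rfl fun j hj => ?_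
  rw [Function.update_of_ne (Finset.ne_of_mem_erase hj)]

/-- two points with different values of `|z^γ|²` -/
theorem two_points {Ω : Set (Fin n → ℂ)} (hΩ : IsOpen Ω) (hne : Ω.Nonempty) {γ : Fin n → ℤ}
    {i : Fin n} (hi : γ i ≠ 0) :
    ∃ p ∈ Ω ∩ star n, ∃ q ∈ Ω ∩ star n, ‖mon γ p‖ ^ 2 < ‖mon γ q‖ ^ 2 := by
  obtain ⟨p, hp⟩ := exists_star hΩ hne
  have hcont : Continuous fun s : ℝ => Function.update p i ((s : ℂ) * p i) := by
    refine continuous_pi fun j => ?_
    by_cases h : j = i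
    · subst h
      simp only [Function.update_self]
      fun_prop
    · simp only [Function.update_of_ne h]
      exact continuous_const
  have h1 : ∀ᶠ s : ℝ in 𝓝[>] 1, Function.update p i ((s : ℂ) * p i) ∈ Ω ∩ star n := by
    have h2 : Tendsto (fun s : ℝ => Function.update p i ((s : ℂ) * p i)) (𝓝 1) (𝓝 p) := by
      have := hcont.tendsto 1
      simpa using this
    exact (h2.mono_left nhdsWithin_le_nhds).eventually ((hΩ.inter isOpen_star).mem_nhds hp)
  obtain ⟨s, hs, hs1⟩ := (h1.and self_mem_nhdsWithin).exists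
  have hs1' : (1 : ℝ) < s := hs1
  set q := Function.update p i ((s : ℂ) * p i) with hq
  have hval : ‖mon γ q‖ ^ 2 = (s ^ γ i) ^ 2 * ‖mon γ p‖ ^ 2 := by
    rw [hq, mon_update, norm_mul, mul_pow, norm_zpow, norm_real, Real.norm_eq_abs,
      abs_of_pos (by linarith)]
  have hpp : 0 < ‖mon γ p‖ ^ 2 := pow_pos (norm_pos_iff.2 (mon_ne hp.2)) 2
  have hspos : 0 < s ^ γ i := zpow_pos (by linarith) _
  rcases lt_or_gt_of_ne hi with hneg | hpos
  · have h2 : s ^ γ i < 1 := zpow_lt_one_of_neg₀ hs1' hneg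
    refine ⟨q, hs, p, hp, ?_⟩
    rw [hval]
    have : (s ^ γ i) ^ 2 < 1 := by nlinarith
    nlinarith
  · have h2 : 1 < s ^ γ i := one_lt_zpow₀ hs1' hpos
    refine ⟨p, hp, q, hs, ?_⟩
    rw [hval]
    have : 1 < (s ^ γ i) ^ 2 := by nlinarith
    nlinarith

theorem good_single {Ω : Set (Fin n → ℂ)} (hΩ : IsOpen Ω) (hb : Bornology.IsBounded Ω)
    (j : Fin n) (m : ℕ) : good Ω (Pi.single j (m : ℤ)) := by
  have hnn : ∀ i, 0 ≤ (Pi.single j (m : ℤ) : Fin n → ℤ) i := by
    intro i
    by_cases h : i = j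
    · subst h; rw [Pi.single_eq_same]; positivity
    · rw [Pi.single_eq_of_ne h]
  refine ⟨fun z _ i => Or.inr (hnn i), ?_⟩
  obtain ⟨C, hC⟩ := hb.exists_norm_le
  have hfin : IsFiniteMeasure (volume.restrict Ω) := ⟨by
    rw [Measure.restrict_apply_univ]
    exact hb.measure_lt_top⟩
  have e : ∀ z : Fin n → ℂ, mon (Pi.single j (m : ℤ)) z = z j ^ m := by
    intro z
    unfold mon
    rw [Finset.prod_eq_single j]
    · rw [Pi.single_eq_same, zpow_natCast]
    · intro i _ hi
      rw [Pi.single_eq_of_ne hi, zpow_zero]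
    · intro h
      exact absurd (Finset.mem_univ j) h
  refine MemLp.of_bound (measurable_mon _).aestronglyMeasurable (C ^ m) ?_
  rw [ae_restrict_iff' hΩ.measurableSet]
  refine Eventually.of_forall fun z hz => ?_
  rw [e, norm_pow]
  exact pow_le_pow_left₀ (norm_nonneg _) ((norm_le_pi_norm z j).trans (hC z hz)) m

theorem main {Ω : Set (Fin n → ℂ)} (hn : 2 ≤ n) {f : (Fin n → ℂ) → ℂ}
    {T : bergman Ω →L[ℂ] L2 Ω} (S : Setting Ω f T) {ι : Type*} {b : ι → bergman Ω}
    (hb : Orthonormal ℂ b)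
    (hP : ∀ x : bergman Ω, HasSum (fun i => ‖inner ℂ (b i) x‖ ^ 2) (‖x‖ ^ 2))
    (hs : Summable fun i => ‖T (b i)‖ ^ 2) : T = 0 := by
  choose cf hcf using fun γ : Fin n → ℤ => exists_coeff S.op S.conn S.inv γ S.diff
  by_cases hall : ∀ γ : Fin n → ℤ, γ ≠ 0 → cf γ = 0
  · refine zero_of_const S.op S.hank (c₀ := cf 0) ?_
    refine const_of_coeff S.inv S.diff.continuousOn ?_ ?_
    · intro z hz
      rw [(hcf 0).1 z hz, mon_zero, mul_one]
    · intro γ hγ z hz
      rw [(hcf γ).1 z hz, hall γ hγ, zero_mul]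
  · exfalso
    push Not at hall
    obtain ⟨γ, hγ0, hc⟩ := hall
    have h := (hcf γ).1
    have hγ := (hcf γ).2 hc
    obtain ⟨i, hi⟩ := Function.ne_iff.1 hγ0
    have hi' : γ i ≠ 0 := hi
    obtain ⟨j, hj⟩ : ∃ j : Fin n, j ≠ i := by
      have : Nontrivial (Fin n) := Fin.nontrivial_iff_two_le.2 hn
      exact exists_ne i
    obtain ⟨p, hp, q, hq, hpq⟩ := two_points S.op S.conn.nonempty hi'
    set x := ‖mon γ p‖ ^ 2 with hx
    set y := ‖mon γ q‖ ^ 2 with hy
    have hx0 : 0 < x := pow_pos (norm_pos_iff.2 (mon_ne hp.2)) 2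
    set d := (y - x) / 5 with hd
    have hd0 : 0 < d := by rw [hd]; linarith
    have hyx : y = x + 5 * d := by rw [hd]; ring
    have L := fun m : ℕ => line S hc h hγ (a' := x + d) (a := x + 2 * d) (b := x + 3 * d)
      (b' := x + 4 * d) (by linarith) (by linarith) (by linarith) (by linarith) hp
      (by linarith) hq (by linarith) (good_single S.op S.bdd j m)
    choose s K hg hL using L
    set idx : ℕ → ℕ → (Fin n → ℤ) := fun m k => Pi.single j (m : ℤ) - s m • γ + (k + 1) • γ with hidx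
    have hinj : ∀ m k m' k' : ℕ, idx m k = idx m' k' → m = m' ∧ k = k' := by
      intro m k m' k' he
      have h1 := congrFun he i
      have h2 := congrFun he j
      simp only [hidx, Pi.add_apply, Pi.sub_apply, Pi.smul_apply,
        Pi.single_eq_of_ne hj.symm, Pi.single_eq_same] at h1 h2
      simp only [nsmul_eq_mul] at h1 h2
      push_cast at h1 h2
      have h3 : ((k : ℤ) + 1 - s m) = ((k' : ℤ) + 1 - s m') := by
        have : ((k : ℤ) + 1 - s m) * γ i = ((k' : ℤ) + 1 - s m') * γ i := by linarith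
        exact mul_right_cancel₀ hi' this
      have h4 : (m : ℤ) = m' := by
        have : (m : ℤ) + ((k : ℤ) + 1 - s m) * γ j = m' + ((k' : ℤ) + 1 - s m') * γ j := by
          linarith
        rw [h3] at this
        linarith
      have h5 : m = m' := by exact_mod_cast h4
      subst h5
      refine ⟨rfl, ?_⟩
      have : (k : ℤ) = k' := by linarith
      exact_mod_cast this
    have hbound : ∀ M : ℕ, (M : ℝ) * (‖cf γ‖ ^ 2 * d) ≤ ∑' i, ‖T (b i)‖ ^ 2 := by
      intro M
      set F : Finset (Fin n → ℤ) := ((Finset.range M).sigma fun m => Finset.range (K m)).image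
        fun p => idx p.1 p.2 with hF
      have h1 := hs_sum S.op S.conn.nonempty S.inv T hb hP hs F (by
        intro β hβ
        rw [hF, Finset.mem_image] at hβ
        obtain ⟨⟨m, k⟩, -, rfl⟩ := hβ
        exact hg m k)
      refine le_trans ?_ h1
      rw [hF, Finset.sum_image, Finset.sum_sigma]
      · calc (M : ℝ) * (‖cf γ‖ ^ 2 * d) = ∑ m ∈ Finset.range M, ‖cf γ‖ ^ 2 * d := by
              rw [Finset.sum_const, Finset.card_range, nsmul_eq_mul]
          _ ≤ _ := by
              refine Finset.sum_le_sum fun m _ => ?_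
              have := hL m
              have e : x + 3 * d - (x + 2 * d) = d := by ring
              rw [e] at this
              exact this
      · rintro ⟨m, k⟩ - ⟨m', k'⟩ - he
        obtain ⟨h2, h3⟩ := hinj m k m' k' he
        subst h2; subst h3; rfl
    have hpos : 0 < ‖cf γ‖ ^ 2 * d := by
      have := norm_pos_iff.2 hc
      positivity
    obtain ⟨M, hM⟩ := exists_nat_gt ((∑' i, ‖T (b i)‖ ^ 2) / (‖cf γ‖ ^ 2 * d))
    rw [div_lt_iff₀ hpos] at hM
    linarith [hbound M]

end Pool.Agent.Q173.HS
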