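import Mathlib

/-!
# Bergman space and Hankel operators on domains of `ℂⁿ`: definitions
-/

set_option autoImplicit false

open MeasureTheory Complex Filter Topology Metric Set
open scoped ComplexConjugate

namespace Pool.Agent.Q173.HS

variable {n : ℕ}

/-- `L²(Ω)` with respect to Lebesgue measure -/
noncomputable abbrev L2 (Ω : Set (Fin n → ℂ)) := Lp ℂ 2 (volume.restrict Ω)

/-- the classes in `L²(Ω)` which have a representative holomorphic on `Ω` -/
def bergmanCarrier (Ω : Set (Fin n → ℂ)) : Set (L2 Ω) :=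
  {u | ∃ g : (Fin n → ℂ) → ℂ, DifferentiableOn ℂ g Ω ∧ u =ᵐ[volume.restrict Ω] g}

theorem bergman_add {Ω : Set (Fin n → ℂ)} {u v : L2 Ω} (hu : u ∈ bergmanCarrier Ω)
    (hv : v ∈ bergmanCarrier Ω) : u + v ∈ bergmanCarrier Ω := by
  obtain ⟨g, hg, hu⟩ := hu
  obtain ⟨h, hh, hv⟩ := hv
  refine ⟨g + h, hg.add hh, ?_⟩
  filter_upwards [hu, hv, Lp.coeFn_add u v] with z h1 h2 h3
  rw [h3, Pi.add_apply, Pi.add_apply, h1, h2]

theorem bergman_zero (Ω : Set (Fin n → ℂ)) : (0 : L2 Ω) ∈ bergmanCarrier Ω :=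
  ⟨0, differentiableOn_const 0, Lp.coeFn_zero _ _ _⟩

theorem bergman_smul {Ω : Set (Fin n → ℂ)} (c : ℂ) {u : L2 Ω} (hu : u ∈ bergmanCarrier Ω) :
    c • u ∈ bergmanCarrier Ω := by
  obtain ⟨g, hg, hu⟩ := hu
  refine ⟨fun z => c * g z, hg.const_mul c, ?_⟩
  filter_upwards [hu, Lp.coeFn_smul c u] with z h1 h2
  rw [h2, Pi.smul_apply, h1, smul_eq_mul]

/-- the Bergman space `A²(Ω)` as a subspace of `L²(Ω)` -/
noncomputable def bergman (Ω : Set (Fin n → ℂ)) : Submodule ℂ (L2 Ω) where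
  carrier := bergmanCarrier Ω
  add_mem' := bergman_add
  zero_mem' := bergman_zero Ω
  smul_mem' := bergman_smul

/-- the domain `{u ∈ A²(Ω) : φ u ∈ L²(Ω)}` of the Hankel operator with symbol `φ` -/
def hankelDomain (Ω : Set (Fin n → ℂ)) (φ : (Fin n → ℂ) → ℂ) : Set (bergman Ω) :=
  {u | MemLp (fun z => φ z * (u : L2 Ω) z) 2 (volume.restrict Ω)}

/-- `T` is the bounded extension of the densely defined Hankel operator `u ↦ (I - P)(φ u)`:
for `u` in the domain, `T u` is orthogonal to `A²(Ω)` and `φ u - T u` lies in `A²(Ω)`. -/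
structure IsHankel (Ω : Set (Fin n → ℂ)) (φ : (Fin n → ℂ) → ℂ) (T : bergman Ω →L[ℂ] L2 Ω) :
    Prop where
  dense : Dense (hankelDomain Ω φ)
  orth : ∀ u ∈ hankelDomain Ω φ, ∀ v ∈ bergman Ω, inner ℂ v (T u) = 0
  diff : ∀ u ∈ hankelDomain Ω φ, ∃ w ∈ bergman Ω,
    ∀ᵐ z ∂(volume.restrict Ω), φ z * (u : L2 Ω) z = T u z + w z

end Pool.Agent.Q173.HS
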