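import Pool.Agent.Q173.HS.Avg
import Pool.Agent.Q173.HS.Defs

/-!
# The main estimate
-/

set_option autoImplicit false

open MeasureTheory Complex Filter Topology Metric Set
open scoped ComplexConjugate

namespace Pool.Agent.Q173.HS

variable {n : ℕ}

theorem restrict_of_sub {Ω K : Set (Fin n → ℂ)} (hK : IsCompact K) (hKΩ : K ⊆ Ω) :
    (volume.restrict Ω).restrict K = volume.restrict K := by
  rw [Measure.restrict_restrict hK.measurableSet, Set.inter_eq_left.2 hKΩ]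

theorem memLp_trunc {Ω K : Set (Fin n → ℂ)} (hK : IsCompact K) (hKΩ : K ⊆ Ω)
    {h : (Fin n → ℂ) → ℂ} (hh : ContinuousOn h K) :
    MemLp (K.indicator h) 2 (volume.restrict Ω) := by
  rw [memLp_indicator_iff_restrict hK.measurableSet, restrict_of_sub hK hKΩ]
  have : IsFiniteMeasure (volume.restrict K) := ⟨by
    rw [Measure.restrict_apply_univ]; exact hK.measure_lt_top⟩
  obtain ⟨C, hC⟩ := hK.exists_bound_of_continuousOn hh
  refine MemLp.of_bound (hh.aestronglyMeasurable hK.measurableSet) C ?_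
  rw [ae_restrict_iff' hK.measurableSet]
  exact Eventually.of_forall hC

/-- truncation of `h` to `K`, as an element of `L²(Ω)` -/
noncomputable def trunc {Ω K : Set (Fin n → ℂ)} (hK : IsCompact K) (hKΩ : K ⊆ Ω)
    {h : (Fin n → ℂ) → ℂ} (hh : ContinuousOn h K) : L2 Ω := (memLp_trunc hK hKΩ hh).toLp

theorem inner_trunc {Ω K : Set (Fin n → ℂ)} (hK : IsCompact K) (hKΩ : K ⊆ Ω)
    {h : (Fin n → ℂ) → ℂ} (hh : ContinuousOn h K) (x : L2 Ω) :
    inner ℂ (trunc hK hKΩ hh) x = ∫ z in K, conj (h z) * x z := by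
  rw [L2.inner_def]
  have h1 : ∀ᵐ z ∂(volume.restrict Ω), inner ℂ ((trunc hK hKΩ hh : L2 Ω) z) (x z) =
      K.indicator (fun z => conj (h z) * x z) z := by
    filter_upwards [(memLp_trunc hK hKΩ hh).coeFn_toLp] with z hz
    change inner ℂ (((memLp_trunc hK hKΩ hh).toLp : L2 Ω) z) (x z) = _
    rw [hz, RCLike.inner_apply]
    by_cases hzK : z ∈ K
    · rw [indicator_of_mem hzK, indicator_of_mem hzK, mul_comm]
    · rw [indicator_of_notMem hzK, indicator_of_notMem hzK, map_zero, mul_zero]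
  rw [integral_congr_ae h1, integral_indicator hK.measurableSet, restrict_of_sub hK hKΩ]

theorem setIntegral_congr_ae' {Ω K : Set (Fin n → ℂ)} (hK : IsCompact K) (hKΩ : K ⊆ Ω)
    {φ x y : (Fin n → ℂ) → ℂ} (h : x =ᵐ[volume.restrict Ω] y) :
    ∫ z in K, φ z * x z = ∫ z in K, φ z * y z := by
  apply integral_congr_ae
  have h1 : x =ᵐ[volume.restrict K] y := ae_restrict_of_ae_restrict_of_subset hKΩ h
  filter_upwards [h1] with z hz
  rw [hz]

theorem norm_trunc_sq {Ω K : Set (Fin n → ℂ)} (hK : IsCompact K) (hKΩ : K ⊆ Ω)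
    {h : (Fin n → ℂ) → ℂ} (hh : ContinuousOn h K) :
    ((‖trunc hK hKΩ hh‖ ^ 2 : ℝ) : ℂ) = ∫ z in K, conj (h z) * h z := by
  have h1 := inner_self_eq_norm_sq_to_K (𝕜 := ℂ) (trunc hK hKΩ hh)
  rw [inner_trunc] at h1
  rw [ofReal_pow]
  refine h1.symm.trans ?_
  apply integral_congr_ae
  have h2 : (trunc hK hKΩ hh : L2 Ω) =ᵐ[volume.restrict K] K.indicator h :=
    ae_restrict_of_ae_restrict_of_subset hKΩ (memLp_trunc hK hKΩ hh).coeFn_toLp
  filter_upwards [h2, ae_restrict_mem hK.measurableSet] with z hz hzK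
  rw [hz, indicator_of_mem hzK]

/-- pairing of `T u` with test functions orthogonal to the Bergman space -/
theorem pairing {Ω K : Set (Fin n → ℂ)} (hK : IsCompact K) (hKΩ : K ⊆ Ω)
    {f : (Fin n → ℂ) → ℂ} (hf : ContinuousOn f K) {T : bergman Ω →L[ℂ] L2 Ω}
    (hT : IsHankel Ω (fun z => conj (f z)) T)
    {h : (Fin n → ℂ) → ℂ} (hh : ContinuousOn h K)
    (ho : ∀ a, DifferentiableOn ℂ a Ω → MemLp a 2 (volume.restrict Ω) →
      ∫ z in K, conj (h z) * a z = 0) (x : bergman Ω) :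
    inner ℂ (trunc hK hKΩ hh) (T x) = inner ℂ (trunc hK hKΩ (hf.mul hh)) (x : L2 Ω) := by
  have hc1 : Continuous fun x : bergman Ω => inner ℂ (trunc hK hKΩ hh) (T x) :=
    continuous_const.inner T.continuous
  have hc2 : Continuous fun x : bergman Ω => inner ℂ (trunc hK hKΩ (hf.mul hh)) (x : L2 Ω) :=
    continuous_const.inner continuous_subtype_val
  refine congrFun (Continuous.ext_on hT.dense hc1 hc2 fun x hx => ?_) x
  obtain ⟨w, hw, hw2⟩ := hT.diff x hx
  have hxm : MemLp (fun z => conj (f z) * (x : L2 Ω) z) 2 (volume.restrict Ω) := hx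
  have hTx : T x = hxm.toLp - w := by
    apply Lp.ext
    filter_upwards [hxm.coeFn_toLp, hw2, Lp.coeFn_sub hxm.toLp w] with z h1 h2 h3
    rw [h3, Pi.sub_apply, h1, h2, add_sub_cancel_right]
  have hw0 : inner ℂ (trunc hK hKΩ hh) w = 0 := by
    obtain ⟨g, hg, hwg⟩ := hw
    rw [inner_trunc, setIntegral_congr_ae' hK hKΩ hwg]
    exact ho g hg ((memLp_congr_ae hwg).1 (Lp.memLp w))
  rw [hTx, inner_sub_right, hw0, sub_zero, inner_trunc, inner_trunc,
    setIntegral_congr_ae' hK hKΩ hxm.coeFn_toLp]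
  congr 1
  funext z
  simp only [Pi.mul_apply, map_mul]
  ring

/-- the monomial `z^β` belongs to the Bergman space -/
def good (Ω : Set (Fin n → ℂ)) (β : Fin n → ℤ) : Prop :=
  Hol Ω β ∧ MemLp (mon β) 2 (volume.restrict Ω)

/-- the monomial as an element of the Bergman space -/
noncomputable def xx {Ω : Set (Fin n → ℂ)} {β : Fin n → ℤ} (h : good Ω β) : bergman Ω :=
  ⟨h.2.toLp, mon β, h.1.diff, h.2.coeFn_toLp⟩

/-- the setting -/
structure Setting (Ω : Set (Fin n → ℂ)) (f : (Fin n → ℂ) → ℂ) (T : bergman Ω →L[ℂ] L2 Ω) :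
    Prop where
  op : IsOpen Ω
  conn : IsConnected Ω
  bdd : Bornology.IsBounded Ω
  co : Ωᶜ.Nonempty
  inv : Inv Ω
  diff : DifferentiableOn ℂ f Ω
  hank : IsHankel Ω (fun z => conj (f z)) T

theorem contraction {Ω : Set (Fin n → ℂ)} {f : (Fin n → ℂ) → ℂ} {T : bergman Ω →L[ℂ] L2 Ω}
    (S : Setting Ω f T) {a : (Fin n → ℂ) → ℂ} (ha : DifferentiableOn ℂ a Ω)
    (hm : MemLp a 2 (volume.restrict Ω)) {β : Fin n → ℤ} {c : ℂ} (hc : c ≠ 0)
    (h : ∀ z ∈ Ω ∩ star n, av β a z = c * mon β z) : MemLp (mon β) 2 (volume.restrict Ω) := by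
  rw [memLp_sq]
  have hcn : 0 < ‖c‖ := norm_pos_iff.2 hc
  apply integrable_of_bdd S.op S.bdd S.co β (‖hm.toLp‖ ^ 2 / ‖c‖ ^ 2)
  refine Eventually.of_forall fun N => ?_
  have hK := isCompact_KK S.bdd N (Ω := Ω)
  have hKΩ : KK Ω N ⊆ Ω := fun z hz => (KK_sub Ω N hz).1
  have hKs : KK Ω N ⊆ star n := fun z hz => (KK_sub Ω N hz).2
  have hmc : ContinuousOn (mon β) (KK Ω N) := (continuousOn_mon β).mono hKs
  have h1 : inner ℂ (trunc hK hKΩ hmc) (hm.toLp : L2 Ω) = c * ((AK (KK Ω N) β : ℝ) : ℂ) := by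
    rw [inner_trunc, setIntegral_congr_ae' hK hKΩ hm.coeFn_toLp,
      avg hK (inv_KK S.inv N) hmc (ha.continuousOn.mono hKΩ) β fun t z _ => mon_rot β t z]
    unfold AK
    rw [← integral_complex_ofReal, ← integral_const_mul]
    refine setIntegral_congr_fun hK.measurableSet fun z hz => ?_
    rw [h z ⟨hKΩ hz, hKs hz⟩, ← normSq_eq_norm_sq, ← mul_conj]
    ring
  have h2 : ‖trunc hK hKΩ hmc‖ ^ 2 = AK (KK Ω N) β := by
    have h3 := norm_trunc_sq hK hKΩ hmc
    have h4 : ∫ z in KK Ω N, conj (mon β z) * mon β z = ((AK (KK Ω N) β : ℝ) : ℂ) := by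
      unfold AK
      rw [← integral_complex_ofReal]
      congr 1
      funext z
      rw [← normSq_eq_norm_sq, ← mul_conj, mul_comm]
    rw [h4] at h3
    exact_mod_cast h3
  have h5 := norm_inner_le_norm (𝕜 := ℂ) (trunc hK hKΩ hmc) (hm.toLp : L2 Ω)
  have hA : 0 ≤ AK (KK Ω N) β := by rw [← h2]; positivity
  rw [h1, norm_mul, norm_real, Real.norm_eq_abs, abs_of_nonneg hA] at h5
  rw [le_div_iff₀ (by positivity)]
  set X := ‖trunc hK hKΩ hmc‖ with hX
  set Y := ‖(hm.toLp : L2 Ω)‖ with hY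
  have hX0 : 0 ≤ X := norm_nonneg _
  have hY0 : 0 ≤ Y := norm_nonneg _
  rw [← h2] at h5 ⊢
  rcases hX0.eq_or_lt with h0 | h0
  · rw [← h0]; nlinarith [sq_nonneg Y]
  · have h6 : ‖c‖ * X ≤ Y := by
      have : X * (‖c‖ * X) ≤ X * Y := by nlinarith
      exact le_of_mul_le_mul_left this h0
    have h7 : (‖c‖ * X) ^ 2 ≤ Y ^ 2 := pow_le_pow_left₀ (by positivity) h6 2
    nlinarith

/-- the basic estimate on a compact set -/
theorem est {Ω : Set (Fin n → ℂ)} {f : (Fin n → ℂ) → ℂ} {T : bergman Ω →L[ℂ] L2 Ω}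
    (S : Setting Ω f T) {γ β : Fin n → ℤ} {c : ℂ}
    (h : ∀ z ∈ Ω ∩ star n, av γ f z = c * mon γ z) (hα : good Ω (β + γ)) (N : ℕ) (ρ : ℝ)
    (hρ : ((∀ a, DifferentiableOn ℂ a Ω → MemLp a 2 (volume.restrict Ω) →
      ∀ z ∈ KK Ω N, av β a z = 0) ∧ ρ = 0) ∨
      ((∀ a, DifferentiableOn ℂ a Ω → ∃ d : ℂ, ∀ z ∈ KK Ω N, av β a z = d * mon β z) ∧
      ∫ z in KK Ω N, (‖mon γ z‖ ^ 2 - ρ) * ‖mon β z‖ ^ 2 = 0)) :
    ‖c‖ ^ 2 * ∫ z in KK Ω N, (‖mon γ z‖ ^ 2 - ρ) ^ 2 * ‖mon β z‖ ^ 2 ≤ ‖T (xx hα)‖ ^ 2 := by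
  have hK := isCompact_KK S.bdd N (Ω := Ω)
  have hKI := inv_KK S.inv N
  have hKΩ : KK Ω N ⊆ Ω := fun z hz => (KK_sub Ω N hz).1
  have hKs : KK Ω N ⊆ star n := fun z hz => (KK_sub Ω N hz).2
  have cβ : ContinuousOn (mon β) (KK Ω N) := (continuousOn_mon β).mono hKs
  have cγ : ContinuousOn (mon γ) (KK Ω N) := (continuousOn_mon γ).mono hKs
  have cα : ContinuousOn (mon (β + γ)) (KK Ω N) := (continuousOn_mon _).mono hKs
  have cf : ContinuousOn f (KK Ω N) := S.diff.continuousOn.mono hKΩ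
  set hh : (Fin n → ℂ) → ℂ := fun z => (conj c * ((‖mon γ z‖ ^ 2 - ρ : ℝ) : ℂ)) * mon β z with hhd
  have ch : ContinuousOn hh (KK Ω N) := by
    refine (continuousOn_const.mul ?_).mul cβ
    exact continuous_ofReal.comp_continuousOn ((cγ.norm.pow 2).sub continuousOn_const)
  have hw : ∀ t : G n, ∀ z ∈ KK Ω N, hh (rot t z) = chi β t * hh z := by
    intro t z _
    simp only [hhd, mon_rot, norm_mul, chi_norm, one_mul]
    ring
  have ho : ∀ a, DifferentiableOn ℂ a Ω → MemLp a 2 (volume.restrict Ω) →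
      ∫ z in KK Ω N, conj (hh z) * a z = 0 := by
    intro a ha hm
    rw [avg hK hKI ch (ha.continuousOn.mono hKΩ) β hw]
    rcases hρ with ⟨h1, -⟩ | ⟨h1, h2⟩
    · have : ∀ z ∈ KK Ω N, conj (hh z) * av β a z = 0 := fun z hz => by
        rw [h1 a ha hm z hz, mul_zero]
      rw [setIntegral_congr_fun hK.measurableSet this]
      simp
    · obtain ⟨d, hd⟩ := h1 a ha
      have h3 : ∀ z ∈ KK Ω N, conj (hh z) * av β a z =
          (c * d) * (((‖mon γ z‖ ^ 2 - ρ) * ‖mon β z‖ ^ 2 : ℝ) : ℂ) := by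
        intro z hz
        rw [hd z hz]
        simp only [hhd, map_mul, conj_conj, conj_ofReal]
        rw [ofReal_mul, ← normSq_eq_norm_sq (mon β z), ← mul_conj]
        ring
      rw [setIntegral_congr_fun hK.measurableSet h3, integral_const_mul, integral_complex_ofReal, h2]
      simp
  have hp := pairing hK hKΩ cf S.hank ch ho (xx hα)
  set X := ∫ z in KK Ω N, (‖mon γ z‖ ^ 2 - ρ) ^ 2 * ‖mon β z‖ ^ 2 with hX
  have hX0 : 0 ≤ X := by
    rw [hX]
    exact setIntegral_nonneg hK.measurableSet fun z _ => by positivity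
  -- norm of the test function
  have hn : ‖trunc hK hKΩ ch‖ ^ 2 = ‖c‖ ^ 2 * X := by
    have h3 := norm_trunc_sq hK hKΩ ch
    have h4 : ∫ z in KK Ω N, conj (hh z) * hh z = ((‖c‖ ^ 2 * X : ℝ) : ℂ) := by
      rw [ofReal_mul, hX, ← integral_complex_ofReal, ← integral_const_mul]
      congr 1
      funext z
      simp only [hhd, map_mul, conj_conj, conj_ofReal]
      push_cast
      rw [← mul_conj' c, ← mul_conj' (mon β z)]
      ring
    rw [h4] at h3
    exact_mod_cast h3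
  -- the pairing
  have hi : inner ℂ (trunc hK hKΩ (cf.mul ch)) ((xx hα : bergman Ω) : L2 Ω) =
      ((‖c‖ ^ 2 * X : ℝ) : ℂ) := by
    have hxx : ((xx hα : bergman Ω) : L2 Ω) =ᵐ[volume.restrict Ω] mon (β + γ) := hα.2.coeFn_toLp
    rw [inner_trunc, setIntegral_congr_ae' hK hKΩ hxx]
    have h1 : ∫ z in KK Ω N, conj ((f * hh) z) * mon (β + γ) z =
        conj (∫ z in KK Ω N, conj (conj (hh z) * mon (β + γ) z) * f z) := by
      rw [← integral_conj]
      congr 1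
      funext z
      simp only [Pi.mul_apply, map_mul, conj_conj]
      ring
    rw [h1, avg (φ := fun z => conj (hh z) * mon (β + γ) z) hK hKI
      ((continuous_conj.comp_continuousOn ch).mul cα) cf γ (by
      intro t z hz
      rw [hw t z hz, mon_rot, chi_mul, map_mul]
      have : conj (chi β t) * conj (hh z) * (chi β t * chi γ t * mon (β + γ) z) =
        (conj (chi β t) * chi β t) * (chi γ t * (conj (hh z) * mon (β + γ) z)) := by ring
      rw [this, chi_conj_mul, one_mul])]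
    have h2 : ∀ z ∈ KK Ω N, conj (conj (hh z) * mon (β + γ) z) * av γ f z =
        ((‖c‖ ^ 2 * ((‖mon γ z‖ ^ 2 - ρ) ^ 2 * ‖mon β z‖ ^ 2) +
          ‖c‖ ^ 2 * ρ * ((‖mon γ z‖ ^ 2 - ρ) * ‖mon β z‖ ^ 2) : ℝ) : ℂ) := by
      intro z hz
      rw [h z ⟨hKΩ hz, hKs hz⟩, mon_add (hKs hz)]
      simp only [hhd, map_mul, conj_conj, conj_ofReal]
      push_cast
      rw [← mul_conj' c, ← mul_conj' (mon β z)]
      have e : (‖mon γ z‖ : ℂ) ^ 2 = mon γ z * conj (mon γ z) := (mul_conj' _).symm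
      rw [e]
      ring
    rw [setIntegral_congr_fun hK.measurableSet h2, integral_complex_ofReal, conj_ofReal]
    congr 1
    have i1 : IntegrableOn (fun z => ‖c‖ ^ 2 * ((‖mon γ z‖ ^ 2 - ρ) ^ 2 * ‖mon β z‖ ^ 2))
        (KK Ω N) :=
      ContinuousOn.integrableOn_compact hK
        (continuousOn_const.mul ((((cγ.norm.pow 2).sub continuousOn_const).pow 2).mul (cβ.norm.pow 2)))
    have i2 : IntegrableOn (fun z => ‖c‖ ^ 2 * ρ * ((‖mon γ z‖ ^ 2 - ρ) * ‖mon β z‖ ^ 2))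
        (KK Ω N) :=
      ContinuousOn.integrableOn_compact hK
        (continuousOn_const.mul (((cγ.norm.pow 2).sub continuousOn_const).mul (cβ.norm.pow 2)))
    rw [integral_add i1 i2, integral_const_mul, integral_const_mul]
    rcases hρ with ⟨-, h3⟩ | ⟨-, h3⟩
    · have h4 : ‖c‖ ^ 2 * ρ = 0 := by rw [h3, mul_zero]
      rw [h4, zero_mul, add_zero]
    · rw [h3, mul_zero, add_zero]
  rw [hi] at hp
  have h5 := norm_inner_le_norm (𝕜 := ℂ) (trunc hK hKΩ ch) (T (xx hα))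
  rw [hp, norm_real, Real.norm_eq_abs, abs_of_nonneg (by positivity), ← hn] at h5
  rw [← hn]
  rcases (norm_nonneg (trunc hK hKΩ ch)).eq_or_lt with h0 | h0
  · rw [← h0, zero_pow two_ne_zero]; positivity
  · have h6 : ‖trunc hK hKΩ ch‖ ≤ ‖T (xx hα)‖ := by
      rw [pow_two] at h5
      exact le_of_mul_le_mul_left h5 h0
    exact pow_le_pow_left₀ (norm_nonneg _) h6 2

end Pool.Agent.Q173.HS
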