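import Pool.Agent.Q173.HS.Step

/-!
# Energy of one line of monomials, and Hilbert–Schmidt sums
-/

set_option autoImplicit false

open MeasureTheory Complex Filter Topology Metric Set
open scoped ComplexConjugate

namespace Pool.Agent.Q173.HS

variable {n : ℕ}

theorem line {Ω : Set (Fin n → ℂ)} {f : (Fin n → ℂ) → ℂ} {T : bergman Ω →L[ℂ] L2 Ω}
    (S : Setting Ω f T) {γ : Fin n → ℤ} {c : ℂ} (hc : c ≠ 0)
    (h : ∀ z ∈ Ω ∩ star n, av γ f z = c * mon γ z) (hγ : Hol Ω γ)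
    {a' a b b' : ℝ} (ha' : 0 < a') (haa : a' < a) (hab : a < b) (hbb : b < b')
    {q₁ q₂ : Fin n → ℂ} (hq₁ : q₁ ∈ Ω ∩ star n) (h₁ : ‖mon γ q₁‖ ^ 2 < a')
    (hq₂ : q₂ ∈ Ω ∩ star n) (h₂ : b' < ‖mon γ q₂‖ ^ 2) {α : Fin n → ℤ} (hα : good Ω α) :
    ∃ m K : ℕ, (∀ k : ℕ, good Ω (α - m • γ + (k + 1) • γ)) ∧
      ‖c‖ ^ 2 * (b - a) ≤ ∑ k ∈ Finset.range K, DD T (α - m • γ + (k + 1) • γ) := by
  have ha0 : 0 < a := ha'.trans haa
  have hb0 : 0 < b := ha0.trans hab
  have c2 : 0 ≤ ‖c‖ ^ 2 := by positivity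
  have nxt : ∀ {β : Fin n → ℤ}, good Ω β → ∀ k : ℕ, good Ω (β + k • γ) := by
    intro β hβ k
    induction k with
    | zero => simpa using hβ
    | succ k ih =>
      rw [succ_nsmul, ← add_assoc]
      exact good_next S hc h hγ ih
  have pos : ∀ {β : Fin n → ℤ}, good Ω β → 0 < AK Ω β := fun hβ =>
    AK_pos S.op S.conn.nonempty _ (good_integrable hβ)
  by_cases hall : ∀ k : ℕ, good Ω (α - k • γ)
  · obtain ⟨k₀, hk₀⟩ := shrink S.op ha' haa hq₁ h₁ hall
    set β := α - (k₀ + 1) • γ with hβ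
    have hβg : good Ω β := hall (k₀ + 1)
    have e1 : α - k₀ • γ = β + γ := by rw [hβ, succ_nsmul]; abel
    rw [e1] at hk₀
    obtain ⟨K, hK⟩ := grow S.op hb0 hbb hq₂ h₂ (α := β + γ)
      (nxt (good_next S hc h hγ hβg))
    refine ⟨k₀ + 1, K + 1, fun k => nxt hβg (k + 1), ?_⟩
    have claim : ∀ M : ℕ, ‖c‖ ^ 2 * (AK Ω (β + (M + 1) • γ) / AK Ω (β + M • γ) -
        AK Ω (β + γ) / AK Ω β) ≤ ∑ k ∈ Finset.range M, DD T (β + (k + 1) • γ) := by
      intro M
      induction M with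
      | zero => simp
      | succ M ih =>
        rw [Finset.sum_range_succ]
        have g0 := nxt hβg M
        have g1 := nxt hβg (M + 1)
        have e2 : β + (M + 1) • γ = β + M • γ + γ := by rw [succ_nsmul]; abel
        have e3 : β + (M + 1 + 1) • γ = β + M • γ + γ + γ := by rw [succ_nsmul, succ_nsmul]; abel
        rw [e2] at g1
        have := DD_step S hc h g1 g0
        rw [e3, e2]
        rw [e2] at ih
        linarith
    refine le_trans ?_ (claim (K + 1))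
    apply mul_le_mul_of_nonneg_left _ c2
    have e4 : β + γ + K • γ = β + (K + 1) • γ := by rw [succ_nsmul]; abel
    have e5 : β + γ + (K + 1) • γ = β + (K + 1 + 1) • γ := by rw [succ_nsmul _ (K + 1)]; abel
    rw [e4, e5] at hK
    have p1 := pos (nxt hβg (K + 1))
    have p0 := pos hβg
    have i1 : b < AK Ω (β + (K + 1 + 1) • γ) / AK Ω (β + (K + 1) • γ) := by
      rw [lt_div_iff₀ p1]; exact hK
    have i2 : AK Ω (β + γ) / AK Ω β < a := by
      rw [div_lt_iff₀ p0]; exact hk₀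
    linarith
  · push Not at hall
    classical
    set m := Nat.find hall with hm
    have hmb : ¬ good Ω (α - m • γ) := Nat.find_spec hall
    have hm0 : m ≠ 0 := by
      intro h0
      apply hmb
      rw [h0]
      simpa using hα
    obtain ⟨m', hm'⟩ := Nat.exists_eq_succ_of_ne_zero hm0
    have hg : good Ω (α - m' • γ) := by
      by_contra hcon
      have := Nat.find_min' hall hcon
      omega
    set β := α - m • γ with hβ
    have e1 : α - m' • γ = β + γ := by rw [hβ, hm', Nat.succ_eq_add_one, succ_nsmul]; abel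
    rw [e1] at hg
    have gk : ∀ k : ℕ, good Ω (β + (k + 1) • γ) := by
      intro k
      have e : β + (k + 1) • γ = β + γ + k • γ := by rw [succ_nsmul]; abel
      rw [e]
      exact nxt hg k
    obtain ⟨K, hK⟩ := grow S.op hb0 hbb hq₂ h₂ (α := β + γ) (nxt hg)
    refine ⟨m, K + 1, gk, ?_⟩
    have claim : ∀ M : ℕ, ‖c‖ ^ 2 * (AK Ω (β + (M + 2) • γ) / AK Ω (β + (M + 1) • γ)) ≤
        ∑ k ∈ Finset.range (M + 1), DD T (β + (k + 1) • γ) := by
      intro M
      induction M with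
      | zero =>
        rw [Finset.sum_range_one]
        have := DD_bottom S hc h hg hmb
        simp only [zero_add, one_nsmul, two_nsmul, ← add_assoc]
        exact this
      | succ M ih =>
        rw [Finset.sum_range_succ]
        have g0 := gk M
        have g1 := gk (M + 1)
        have e2 : β + (M + 1 + 1) • γ = β + (M + 1) • γ + γ := by rw [succ_nsmul _ (M + 1)]; abel
        have e3 : β + (M + 1 + 2) • γ = β + (M + 1) • γ + γ + γ := by
          rw [show M + 1 + 2 = (M + 1) + 1 + 1 by ring, succ_nsmul, succ_nsmul _ (M + 1)]; abel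
        have e4 : β + (M + 2) • γ = β + (M + 1) • γ + γ := e2
        rw [e2] at g1
        have := DD_step S hc h g1 g0
        rw [e3, e2]
        rw [e4] at ih
        linarith
    refine le_trans ?_ (claim K)
    apply mul_le_mul_of_nonneg_left _ c2
    have e4 : β + γ + K • γ = β + (K + 1) • γ := by rw [succ_nsmul]; abel
    have e5 : β + γ + (K + 1) • γ = β + (K + 2) • γ := by
      rw [show K + 2 = (K + 1) + 1 by ring, succ_nsmul _ (K + 1)]; abel
    rw [e4, e5] at hK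
    have p1 := pos (gk K)
    have i1 : b < AK Ω (β + (K + 2) • γ) / AK Ω (β + (K + 1) • γ) := by
      rw [lt_div_iff₀ p1]; exact hK
    linarith

/-- Parseval -/
theorem parseval_basis {E : Type*} [NormedAddCommGroup E] [InnerProductSpace ℂ E] {ι : Type*}
    (b : HilbertBasis ι ℂ E) (x : E) :
    ENNReal.ofReal (‖x‖ ^ 2) = ∑' i, ENNReal.ofReal (‖inner ℂ (b i) x‖ ^ 2) := by
  have h1 := b.hasSum_inner_mul_inner x x
  have h2 : ∀ i, inner ℂ x (b i) * inner ℂ (b i) x = ((‖inner ℂ (b i) x‖ ^ 2 : ℝ) : ℂ) := by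
    intro i
    rw [← inner_conj_symm x (b i), ofReal_pow, ← conj_mul']
  rw [funext h2] at h1
  have h3 : inner ℂ x x = ((‖x‖ ^ 2 : ℝ) : ℂ) := by
    rw [inner_self_eq_norm_sq_to_K]; push_cast; rfl
  rw [h3, hasSum_ofReal] at h1
  rw [← h1.tsum_eq, ENNReal.ofReal_tsum_of_nonneg (fun i => by positivity) h1.summable]

/-- comparison of the square sums of a functional over orthonormal families -/
theorem func_le {E : Type*} [NormedAddCommGroup E] [InnerProductSpace ℂ E] (l : E →L[ℂ] ℂ)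
    {ι : Type*} {b : ι → E} (hb : Orthonormal ℂ b)
    (hP : ∀ x : E, HasSum (fun i => ‖inner ℂ (b i) x‖ ^ 2) (‖x‖ ^ 2))
    {J : Type*} (s : Finset J) (e : J → E) (he : Orthonormal ℂ e) :
    ENNReal.ofReal (∑ j ∈ s, ‖l (e j)‖ ^ 2) ≤ ∑' i, ENNReal.ofReal (‖l (b i)‖ ^ 2) := by
  rcases eq_or_ne (∑' i, ENNReal.ofReal (‖l (b i)‖ ^ 2)) ⊤ with htop | htop
  · rw [htop]; exact le_top
  have hsum : Summable fun i => ‖l (b i)‖ ^ 2 := by
    have h1 := ENNReal.summable_toReal htop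
    refine h1.congr fun i => ?_
    rw [ENNReal.toReal_ofReal (by positivity)]
  rw [← ENNReal.ofReal_tsum_of_nonneg (fun i => by positivity) hsum]
  apply ENNReal.ofReal_le_ofReal
  set L := ∑' i, ‖l (b i)‖ ^ 2 with hL
  set S := ∑ j ∈ s, ‖l (e j)‖ ^ 2 with hS
  set y : E := ∑ j ∈ s, conj (l (e j)) • e j with hy
  have hly : l y = ((S : ℝ) : ℂ) := by
    rw [hy, map_sum, hS, ofReal_sum]
    refine Finset.sum_congr rfl fun j _ => ?_
    rw [map_smul, smul_eq_mul, ofReal_pow, ← conj_mul']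
  have hny : ‖y‖ ^ 2 = S := by
    have h1 := he.inner_sum (fun j => conj (l (e j))) (fun j => conj (l (e j))) s
    rw [← hy, inner_self_eq_norm_sq_to_K] at h1
    have h2 : ∑ i ∈ s, (starRingEnd ℂ) (conj (l (e i))) * conj (l (e i)) = ((S : ℝ) : ℂ) := by
      rw [hS, ofReal_sum]
      refine Finset.sum_congr rfl fun j _ => ?_
      rw [conj_conj, mul_conj', ofReal_pow]
    rw [h2] at h1
    have h3 : ((‖y‖ ^ 2 : ℝ) : ℂ) = ((S : ℝ) : ℂ) := by rw [← h1]; push_cast; rfl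
    exact ofReal_injective h3
  -- partial sums converge to `y`
  have hpart : ∀ t : Finset ι, ‖y - ∑ i ∈ t, (inner ℂ (b i) y) • b i‖ ^ 2 =
      ‖y‖ ^ 2 - ∑ i ∈ t, ‖inner ℂ (b i) y‖ ^ 2 := by
    intro t
    set v := ∑ i ∈ t, (inner ℂ (b i) y) • b i with hv
    have h1 : inner ℂ v y = ((∑ i ∈ t, ‖inner ℂ (b i) y‖ ^ 2 : ℝ) : ℂ) := by
      rw [hv, sum_inner, ofReal_sum]
      refine Finset.sum_congr rfl fun i _ => ?_
      rw [inner_smul_left, ofReal_pow, ← conj_mul']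
    have h2 : ‖v‖ ^ 2 = ∑ i ∈ t, ‖inner ℂ (b i) y‖ ^ 2 := by
      have h3 := hb.inner_sum (fun i => inner ℂ (b i) y) (fun i => inner ℂ (b i) y) t
      rw [← hv, inner_self_eq_norm_sq_to_K] at h3
      have h4 : ∑ i ∈ t, (starRingEnd ℂ) (inner ℂ (b i) y) * inner ℂ (b i) y =
          ((∑ i ∈ t, ‖inner ℂ (b i) y‖ ^ 2 : ℝ) : ℂ) := by
        rw [ofReal_sum]
        refine Finset.sum_congr rfl fun j _ => ?_
        rw [conj_mul', ofReal_pow]
      rw [h4] at h3
      have h5 : ((‖v‖ ^ 2 : ℝ) : ℂ) = ((∑ i ∈ t, ‖inner ℂ (b i) y‖ ^ 2 : ℝ) : ℂ) := by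
        rw [← h3]; push_cast; rfl
      exact ofReal_injective h5
    have h5 := norm_sub_sq (𝕜 := ℂ) y v
    have h6 : RCLike.re (inner ℂ y v) = ∑ i ∈ t, ‖inner ℂ (b i) y‖ ^ 2 := by
      rw [← inner_conj_symm, h1, conj_ofReal]
      exact ofReal_re _
    rw [h5, h6, h2]
    ring
  have hbound : ∀ t : Finset ι, ‖l (∑ i ∈ t, (inner ℂ (b i) y) • b i)‖ ≤
      Real.sqrt S * Real.sqrt L := by
    intro t
    have h1 : ‖l (∑ i ∈ t, (inner ℂ (b i) y) • b i)‖ ≤
        ∑ i ∈ t, ‖inner ℂ (b i) y‖ * ‖l (b i)‖ := by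
      rw [map_sum]
      refine (norm_sum_le _ _).trans (le_of_eq ?_)
      refine Finset.sum_congr rfl fun i _ => ?_
      rw [map_smul, smul_eq_mul, norm_mul]
    have h2 := Finset.sum_mul_sq_le_sq_mul_sq t (fun i => ‖inner ℂ (b i) y‖) (fun i => ‖l (b i)‖)
    have h3 : ∑ i ∈ t, ‖inner ℂ (b i) y‖ ^ 2 ≤ S := by
      rw [← hny]
      exact sum_le_hasSum t (fun i _ => by positivity) (hP y)
    have h4 : ∑ i ∈ t, ‖l (b i)‖ ^ 2 ≤ L :=
      hsum.sum_le_tsum t (fun i _ => by positivity)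
    refine h1.trans ?_
    rw [← Real.sqrt_mul' _ (by rw [hL]; exact tsum_nonneg fun i => by positivity)]
    apply Real.le_sqrt_of_sq_le
    refine h2.trans ?_
    exact mul_le_mul h3 h4 (Finset.sum_nonneg fun i _ => by positivity)
      (by rw [hS]; exact Finset.sum_nonneg fun i _ => by positivity)
  have hlim : Tendsto (fun t : Finset ι => ∑ i ∈ t, (inner ℂ (b i) y) • b i) atTop (𝓝 y) := by
    rw [tendsto_iff_norm_sub_tendsto_zero]
    have h1 : Tendsto (fun t : Finset ι => ‖y - ∑ i ∈ t, (inner ℂ (b i) y) • b i‖ ^ 2) atTop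
        (𝓝 0) := by
      simp only [hpart]
      have := (hP y).const_sub (‖y‖ ^ 2)
      rwa [sub_self] at this
    have h2 := (Real.continuous_sqrt.tendsto 0).comp h1
    rw [Real.sqrt_zero] at h2
    refine h2.congr fun t => ?_
    rw [Function.comp_apply, Real.sqrt_sq (norm_nonneg _), norm_sub_rev]
  have hfin : ‖l y‖ ≤ Real.sqrt S * Real.sqrt L :=
    le_of_tendsto ((l.continuous.tendsto y).comp hlim).norm (Eventually.of_forall hbound)
  have hS0 : 0 ≤ S := by rw [hS]; exact Finset.sum_nonneg fun i _ => by positivity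
  have hL0 : 0 ≤ L := by rw [hL]; exact tsum_nonneg fun i => by positivity
  rw [hly, norm_real, Real.norm_eq_abs, abs_of_nonneg hS0] at hfin
  rcases hS0.eq_or_lt with h0 | h0
  · rw [← h0]; exact hL0
  · have h1 : Real.sqrt S * Real.sqrt S ≤ Real.sqrt S * Real.sqrt L := by
      rw [Real.mul_self_sqrt hS0]; exact hfin
    have h2 := le_of_mul_le_mul_left h1 (Real.sqrt_pos.2 h0)
    exact (Real.sqrt_le_sqrt_iff hL0).1 h2

theorem hs_indep {E F : Type*} [NormedAddCommGroup E] [InnerProductSpace ℂ E]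
    [NormedAddCommGroup F] [InnerProductSpace ℂ F] [CompleteSpace F] (T : E →L[ℂ] F)
    {ι : Type*} {b : ι → E} (hb : Orthonormal ℂ b)
    (hP : ∀ x : E, HasSum (fun i => ‖inner ℂ (b i) x‖ ^ 2) (‖x‖ ^ 2))
    (hs : Summable fun i => ‖T (b i)‖ ^ 2)
    {J : Type*} (s : Finset J) (e : J → E) (he : Orthonormal ℂ e) :
    ∑ j ∈ s, ‖T (e j)‖ ^ 2 ≤ ∑' i, ‖T (b i)‖ ^ 2 := by
  obtain ⟨W, w, hw⟩ := exists_hilbertBasis ℂ F
  have key : ∑ j ∈ s, ENNReal.ofReal (‖T (e j)‖ ^ 2) ≤ ∑' i, ENNReal.ofReal (‖T (b i)‖ ^ 2) := by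
    calc ∑ j ∈ s, ENNReal.ofReal (‖T (e j)‖ ^ 2)
        = ∑ j ∈ s, ∑' m, ENNReal.ofReal (‖inner ℂ (w m) (T (e j))‖ ^ 2) :=
          Finset.sum_congr rfl fun j _ => parseval_basis w _
      _ = ∑' m, ∑ j ∈ s, ENNReal.ofReal (‖inner ℂ (w m) (T (e j))‖ ^ 2) :=
          (Summable.tsum_finsetSum fun j _ => ENNReal.summable).symm
      _ ≤ ∑' m, ∑' i, ENNReal.ofReal (‖inner ℂ (w m) (T (b i))‖ ^ 2) := by
          refine ENNReal.tsum_le_tsum fun m => ?_
          rw [← ENNReal.ofReal_sum_of_nonneg fun j _ => by positivity]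
          exact func_le ((innerSL ℂ (w m)).comp T) hb hP s e he
      _ = ∑' i, ∑' m, ENNReal.ofReal (‖inner ℂ (w m) (T (b i))‖ ^ 2) :=
          ENNReal.tsum_comm
      _ = ∑' i, ENNReal.ofReal (‖T (b i)‖ ^ 2) :=
          tsum_congr fun i => (parseval_basis w _).symm
  rw [← ENNReal.ofReal_sum_of_nonneg fun j _ => by positivity,
    ← ENNReal.ofReal_tsum_of_nonneg (fun i => by positivity) hs] at key
  exact (ENNReal.ofReal_le_ofReal_iff (tsum_nonneg fun i => by positivity)).1 key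

theorem exists_chi {δ : Fin n → ℤ} (hδ : δ ≠ 0) : ∃ t : G n, chi δ t ≠ 1 := by
  obtain ⟨j, hj⟩ := Function.ne_iff.1 hδ
  have hj' : (δ j : ℂ) ≠ 0 := by exact_mod_cast hj
  refine ⟨Pi.single j (((1 : ℝ) / (2 * δ j) : ℝ) : UnitAddCircle), ?_⟩
  rw [chi_eq, Finset.prod_eq_single j]
  · rw [Pi.single_eq_same, ee_coe, ← exp_int_mul]
    have : (δ j : ℂ) * (2 * Real.pi * I * (((1 : ℝ) / (2 * δ j) : ℝ) : ℂ)) = Real.pi * I := by
      push_cast
      field_simp
    rw [this, exp_pi_mul_I]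
    norm_num
  · intro i _ hi
    rw [Pi.single_eq_of_ne hi, ee_zero, one_zpow]
  · intro h
    exact absurd (Finset.mem_univ j) h

theorem inner_xx {Ω : Set (Fin n → ℂ)} {β β' : Fin n → ℤ} (h : good Ω β) (h' : good Ω β') :
    inner ℂ ((xx h : bergman Ω) : L2 Ω) ((xx h' : bergman Ω) : L2 Ω) =
      ∫ z in Ω, conj (mon β z) * mon β' z := by
  rw [L2.inner_def]
  apply integral_congr_ae
  have h1 : ((xx h : bergman Ω) : L2 Ω) =ᵐ[volume.restrict Ω] mon β := h.2.coeFn_toLp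
  have h2 : ((xx h' : bergman Ω) : L2 Ω) =ᵐ[volume.restrict Ω] mon β' := h'.2.coeFn_toLp
  filter_upwards [h1, h2] with z e1 e2
  rw [e1, e2, RCLike.inner_apply, mul_comm]

theorem inner_xx_ne {Ω : Set (Fin n → ℂ)} (hI : Inv Ω) {β β' : Fin n → ℤ} (h : good Ω β)
    (h' : good Ω β') (hne : β ≠ β') :
    inner ℂ ((xx h : bergman Ω) : L2 Ω) ((xx h' : bergman Ω) : L2 Ω) = 0 := by
  rw [inner_xx]
  set φ : (Fin n → ℂ) → ℂ := fun z => conj (mon β z) * mon β' z with hφ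
  obtain ⟨t, ht⟩ := exists_chi (sub_ne_zero.2 hne.symm)
  have h1 := setIntegral_rot hI t φ
  have h2 : ∀ z, φ (rot t z) = chi (β' - β) t * φ z := by
    intro z
    simp only [hφ, mon_rot, map_mul]
    rw [sub_eq_add_neg, chi_mul, chi_neg]
    ring
  simp only [h2] at h1
  rw [integral_const_mul] at h1
  have h3 : (chi (β' - β) t - 1) * ∫ z in Ω, φ z = 0 := by rw [sub_mul, h1, one_mul, sub_self]
  rcases mul_eq_zero.1 h3 with h4 | h4
  · exact absurd (sub_eq_zero.1 h4) ht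
  · exact h4

theorem norm_xx {Ω : Set (Fin n → ℂ)} {β : Fin n → ℤ} (h : good Ω β) :
    ‖xx h‖ ^ 2 = AK Ω β := by
  have h1 := inner_xx h h
  rw [inner_self_eq_norm_sq_to_K] at h1
  have h2 : ∫ z in Ω, conj (mon β z) * mon β z = ((AK Ω β : ℝ) : ℂ) := by
    unfold AK
    rw [← integral_complex_ofReal]
    congr 1
    funext z
    rw [ofReal_pow, ← conj_mul']
  rw [h2] at h1
  have h3 : ((‖((xx h : bergman Ω) : L2 Ω)‖ ^ 2 : ℝ) : ℂ) = ((AK Ω β : ℝ) : ℂ) := by
    rw [← h1]; push_cast; rfl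
  have h4 : ‖((xx h : bergman Ω) : L2 Ω)‖ ^ 2 = AK Ω β := by exact_mod_cast h3
  exact h4

theorem hs_sum {Ω : Set (Fin n → ℂ)} (hΩ : IsOpen Ω) (hne : Ω.Nonempty) (hI : Inv Ω)
    (T : bergman Ω →L[ℂ] L2 Ω) {ι : Type*} {b : ι → bergman Ω} (hb : Orthonormal ℂ b)
    (hP : ∀ x : bergman Ω, HasSum (fun i => ‖inner ℂ (b i) x‖ ^ 2) (‖x‖ ^ 2))
    (hs : Summable fun i => ‖T (b i)‖ ^ 2) (F : Finset (Fin n → ℤ)) (hF : ∀ β ∈ F, good Ω β) :
    ∑ β ∈ F, DD T β ≤ ∑' i, ‖T (b i)‖ ^ 2 := by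
  set e : {β : Fin n → ℤ // good Ω β} → bergman Ω := fun β =>
    (((Real.sqrt (AK Ω β.1))⁻¹ : ℝ) : ℂ) • xx β.2 with he
  have pos : ∀ {β : Fin n → ℤ}, good Ω β → 0 < AK Ω β := fun hβ =>
    AK_pos hΩ hne _ (good_integrable hβ)
  have horth : Orthonormal ℂ e := by
    constructor
    · intro β
      have p := pos β.2
      have h2 : ‖e β‖ ^ 2 = 1 := by
        simp only [he]
        rw [norm_smul, norm_real, mul_pow, norm_xx, norm_inv, inv_pow,
          Real.norm_eq_abs, sq_abs, Real.sq_sqrt p.le, inv_mul_cancel₀ p.ne']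
      nlinarith [norm_nonneg (e β)]
    · intro β β' hne'
      rw [Submodule.coe_inner]
      simp only [he, Submodule.coe_smul]
      rw [inner_smul_left, inner_smul_right, inner_xx_ne hI β.2 β'.2
        (fun h => hne' (Subtype.ext h)), mul_zero, mul_zero]
  set g : {β // β ∈ F} → {β : Fin n → ℤ // good Ω β} := fun β => ⟨β.1, hF β.1 β.2⟩ with hg
  have hginj : Function.Injective g := fun x y hxy => by
    have : x.1 = y.1 := congrArg (fun u : {β : Fin n → ℤ // good Ω β} => u.1) hxy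
    exact Subtype.ext this
  have h1 := hs_indep T hb hP hs F.attach (e ∘ g) (horth.comp g hginj)
  refine le_trans (le_of_eq ?_) h1
  rw [← Finset.sum_attach]
  refine Finset.sum_congr rfl fun β _ => ?_
  have p := pos (hF β.1 β.2)
  have e1 : (e ∘ g) β = (((Real.sqrt (AK Ω β.1))⁻¹ : ℝ) : ℂ) • xx (hF β.1 β.2) := rfl
  rw [e1, DD_eq T (hF β.1 β.2), map_smul, norm_smul, mul_pow, norm_real, norm_inv, inv_pow,
    Real.norm_eq_abs, sq_abs, Real.sq_sqrt p.le, div_eq_inv_mul]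

end Pool.Agent.Q173.HS
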