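import Pool.Agent.Q173.HS.Est

/-!
# Estimates along a line of monomials
-/

set_option autoImplicit false

open MeasureTheory Complex Filter Topology Metric Set
open scoped ComplexConjugate

namespace Pool.Agent.Q173.HS

variable {n : ℕ}

theorem sq_mon_add {β γ : Fin n → ℤ} {z : Fin n → ℂ} (hz : z ∈ star n) :
    ‖mon (β + γ) z‖ ^ 2 = ‖mon γ z‖ ^ 2 * ‖mon β z‖ ^ 2 := by
  rw [mon_add hz, norm_mul, mul_pow, mul_comm]

theorem good_integrable {Ω : Set (Fin n → ℂ)} {β : Fin n → ℤ} (h : good Ω β) :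
    Integrable (fun z => ‖mon β z‖ ^ 2) (volume.restrict Ω) := (memLp_sq Ω β).1 h.2

theorem est_bottom {Ω : Set (Fin n → ℂ)} {f : (Fin n → ℂ) → ℂ} {T : bergman Ω →L[ℂ] L2 Ω}
    (S : Setting Ω f T) {γ β : Fin n → ℤ} {c : ℂ} (hc : c ≠ 0)
    (h : ∀ z ∈ Ω ∩ star n, av γ f z = c * mon γ z) (hα : good Ω (β + γ)) (hβ : ¬ good Ω β) :
    Integrable (fun z => ‖mon (β + γ + γ) z‖ ^ 2) (volume.restrict Ω) ∧
      ‖c‖ ^ 2 * AK Ω (β + γ + γ) ≤ ‖T (xx hα)‖ ^ 2 := by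
  have hcn : 0 < ‖c‖ := norm_pos_iff.2 hc
  have key : ∀ N, ‖c‖ ^ 2 * AK (KK Ω N) (β + γ + γ) ≤ ‖T (xx hα)‖ ^ 2 := by
    intro N
    have h1 := est S h hα N 0 (Or.inl ⟨fun a ha hm z hz => by
      obtain ⟨d, hd, hd2⟩ := exists_coeff S.op S.conn S.inv β ha
      rcases eq_or_ne d 0 with h0 | h0
      · rw [hd z (KK_sub Ω N hz), h0, zero_mul]
      · exact absurd ⟨hd2 h0, contraction S ha hm h0 hd⟩ hβ, rfl⟩)
    refine le_trans (le_of_eq ?_) h1
    congr 1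
    unfold AK
    refine setIntegral_congr_fun (isClosed_KK Ω N).measurableSet fun z hz => ?_
    have hs := (KK_sub Ω N hz).2
    simp only [sq_mon_add hs, sub_zero]
    ring
  have hint : Integrable (fun z => ‖mon (β + γ + γ) z‖ ^ 2) (volume.restrict Ω) := by
    apply integrable_of_bdd S.op S.bdd S.co _ (‖T (xx hα)‖ ^ 2 / ‖c‖ ^ 2)
    refine Eventually.of_forall fun N => ?_
    rw [le_div_iff₀ (by positivity), mul_comm]
    exact key N
  refine ⟨hint, ?_⟩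
  have h2 := (AK_tendsto S.op S.co _ hint).const_mul (‖c‖ ^ 2)
  exact le_of_tendsto h2 (Eventually.of_forall key)

theorem est_step {Ω : Set (Fin n → ℂ)} {f : (Fin n → ℂ) → ℂ} {T : bergman Ω →L[ℂ] L2 Ω}
    (S : Setting Ω f T) {γ β : Fin n → ℤ} {c : ℂ} (hc : c ≠ 0)
    (h : ∀ z ∈ Ω ∩ star n, av γ f z = c * mon γ z) (hα : good Ω (β + γ)) (hβ : good Ω β) :
    Integrable (fun z => ‖mon (β + γ + γ) z‖ ^ 2) (volume.restrict Ω) ∧
      ‖c‖ ^ 2 * (AK Ω (β + γ + γ) - AK Ω (β + γ) ^ 2 / AK Ω β) ≤ ‖T (xx hα)‖ ^ 2 := by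
  have hcn : 0 < ‖c‖ := norm_pos_iff.2 hc
  have iβ := good_integrable hβ
  have iα := good_integrable hα
  have pβ : 0 < AK Ω β := AK_pos S.op S.conn.nonempty β iβ
  have tβ := AK_tendsto S.op S.co β iβ
  have tα := AK_tendsto S.op S.co (β + γ) iα
  have key : ∀ N, 0 < AK (KK Ω N) β →
      ‖c‖ ^ 2 * (AK (KK Ω N) (β + γ + γ) - AK (KK Ω N) (β + γ) ^ 2 / AK (KK Ω N) β) ≤
        ‖T (xx hα)‖ ^ 2 := by
    intro N hN
    have hK := isCompact_KK S.bdd N (Ω := Ω)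
    have hKs : KK Ω N ⊆ star n := fun z hz => (KK_sub Ω N hz).2
    set ρ : ℝ := AK (KK Ω N) (β + γ) / AK (KK Ω N) β with hρ
    have j0 := integrableOn_sq hK hKs β
    have j1 := integrableOn_sq hK hKs (β + γ)
    have j2 := integrableOn_sq hK hKs (β + γ + γ)
    have e1 : ∫ z in KK Ω N, (‖mon γ z‖ ^ 2 - ρ) * ‖mon β z‖ ^ 2 = 0 := by
      have : ∀ z ∈ KK Ω N, (‖mon γ z‖ ^ 2 - ρ) * ‖mon β z‖ ^ 2 =
          ‖mon (β + γ) z‖ ^ 2 - ρ * ‖mon β z‖ ^ 2 := by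
        intro z hz
        rw [sq_mon_add (hKs hz)]; ring
      rw [setIntegral_congr_fun hK.measurableSet this, integral_sub j1 (j0.const_mul ρ),
        integral_const_mul]
      change AK (KK Ω N) (β + γ) - ρ * AK (KK Ω N) β = 0
      rw [hρ, div_mul_cancel₀ _ hN.ne', sub_self]
    have e2 : ∫ z in KK Ω N, (‖mon γ z‖ ^ 2 - ρ) ^ 2 * ‖mon β z‖ ^ 2 =
        AK (KK Ω N) (β + γ + γ) - AK (KK Ω N) (β + γ) ^ 2 / AK (KK Ω N) β := by
      have : ∀ z ∈ KK Ω N, (‖mon γ z‖ ^ 2 - ρ) ^ 2 * ‖mon β z‖ ^ 2 =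
          ‖mon (β + γ + γ) z‖ ^ 2 - 2 * ρ * ‖mon (β + γ) z‖ ^ 2 + ρ ^ 2 * ‖mon β z‖ ^ 2 := by
        intro z hz
        rw [sq_mon_add (hKs hz), sq_mon_add (hKs hz)]; ring
      have j12 : IntegrableOn (fun z => ‖mon (β + γ + γ) z‖ ^ 2 - 2 * ρ * ‖mon (β + γ) z‖ ^ 2)
        (KK Ω N) := j2.sub (j1.const_mul _)
      rw [setIntegral_congr_fun hK.measurableSet this, integral_add j12
        (j0.const_mul _), integral_sub j2 (j1.const_mul _), integral_const_mul, integral_const_mul]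
      change AK (KK Ω N) (β + γ + γ) - 2 * ρ * AK (KK Ω N) (β + γ) + ρ ^ 2 * AK (KK Ω N) β = _
      rw [hρ]
      field_simp
      ring
    have h1 := est S h hα N ρ (Or.inr ⟨fun a ha => by
      obtain ⟨d, hd, -⟩ := exists_coeff S.op S.conn S.inv β ha
      exact ⟨d, fun z hz => hd z (KK_sub Ω N hz)⟩, e1⟩)
    rwa [e2] at h1
  have hev : ∀ᶠ N in atTop, AK Ω β / 2 < AK (KK Ω N) β :=
    tβ.eventually_const_lt (by linarith)
  have hint : Integrable (fun z => ‖mon (β + γ + γ) z‖ ^ 2) (volume.restrict Ω) := by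
    apply integrable_of_bdd S.op S.bdd S.co _
      (‖T (xx hα)‖ ^ 2 / ‖c‖ ^ 2 + AK Ω (β + γ) ^ 2 / (AK Ω β / 2))
    filter_upwards [hev] with N hN
    have hNp : 0 < AK (KK Ω N) β := by linarith
    have h1 := key N hNp
    have h2 : AK (KK Ω N) (β + γ + γ) - AK (KK Ω N) (β + γ) ^ 2 / AK (KK Ω N) β ≤
        ‖T (xx hα)‖ ^ 2 / ‖c‖ ^ 2 := by
      rw [le_div_iff₀ (by positivity), mul_comm]
      exact h1
    have h3 : AK (KK Ω N) (β + γ) ^ 2 / AK (KK Ω N) β ≤ AK Ω (β + γ) ^ 2 / (AK Ω β / 2) := by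
      have h4 : 0 ≤ AK (KK Ω N) (β + γ) := by
        unfold AK
        exact integral_nonneg fun z => by positivity
      apply div_le_div₀ (by positivity) _ (by linarith) hN.le
      exact pow_le_pow_left₀ h4 (AK_le _ N iα) 2
    linarith
  refine ⟨hint, ?_⟩
  have t2 := AK_tendsto S.op S.co _ hint
  have h2 := (t2.sub ((tα.pow 2).div tβ pβ.ne')).const_mul (‖c‖ ^ 2)
  refine le_of_tendsto h2 ?_
  filter_upwards [hev] with N hN
  exact key N (by linarith)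

/-- normalised energy of a monomial -/
noncomputable def DD {Ω : Set (Fin n → ℂ)} (T : bergman Ω →L[ℂ] L2 Ω) (β : Fin n → ℤ) : ℝ := by
  classical
  exact if h : good Ω β then ‖T (xx h)‖ ^ 2 / AK Ω β else 0

theorem DD_eq {Ω : Set (Fin n → ℂ)} (T : bergman Ω →L[ℂ] L2 Ω) {β : Fin n → ℤ} (h : good Ω β) :
    DD T β = ‖T (xx h)‖ ^ 2 / AK Ω β := by
  unfold DD
  rw [dif_pos h]

section Line

variable {Ω : Set (Fin n → ℂ)} {f : (Fin n → ℂ) → ℂ} {T : bergman Ω →L[ℂ] L2 Ω}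
  (S : Setting Ω f T) {γ : Fin n → ℤ} {c : ℂ} (hc : c ≠ 0)
  (h : ∀ z ∈ Ω ∩ star n, av γ f z = c * mon γ z) (hγ : Hol Ω γ)

include S hc h

theorem good_next (hγ : Hol Ω γ) {α : Fin n → ℤ} (hα : good Ω α) : good Ω (α + γ) := by
  refine ⟨hα.1.add hγ, ?_⟩
  rw [memLp_sq]
  have e : α = (α - γ) + γ := by abel
  have hα' : good Ω ((α - γ) + γ) := by rw [← e]; exact hα
  have e2 : α + γ = (α - γ) + γ + γ := by abel
  rw [e2]
  by_cases hb : good Ω (α - γ)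
  · exact (est_step S hc h hα' hb).1
  · exact (est_bottom S hc h hα' hb).1

theorem DD_bottom {β : Fin n → ℤ} (hα : good Ω (β + γ)) (hβ : ¬ good Ω β) :
    ‖c‖ ^ 2 * (AK Ω (β + γ + γ) / AK Ω (β + γ)) ≤ DD T (β + γ) := by
  have p := AK_pos S.op S.conn.nonempty _ (good_integrable hα)
  rw [DD_eq T hα, le_div_iff₀ p]
  have := (est_bottom S hc h hα hβ).2
  calc ‖c‖ ^ 2 * (AK Ω (β + γ + γ) / AK Ω (β + γ)) * AK Ω (β + γ) =
      ‖c‖ ^ 2 * AK Ω (β + γ + γ) := by field_simp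
    _ ≤ _ := this

theorem DD_step {β : Fin n → ℤ} (hα : good Ω (β + γ)) (hβ : good Ω β) :
    ‖c‖ ^ 2 * (AK Ω (β + γ + γ) / AK Ω (β + γ) - AK Ω (β + γ) / AK Ω β) ≤ DD T (β + γ) := by
  have p := AK_pos S.op S.conn.nonempty _ (good_integrable hα)
  have q := AK_pos S.op S.conn.nonempty _ (good_integrable hβ)
  rw [DD_eq T hα, le_div_iff₀ p]
  have := (est_step S hc h hα hβ).2
  calc ‖c‖ ^ 2 * (AK Ω (β + γ + γ) / AK Ω (β + γ) - AK Ω (β + γ) / AK Ω β) * AK Ω (β + γ) =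
      ‖c‖ ^ 2 * (AK Ω (β + γ + γ) - AK Ω (β + γ) ^ 2 / AK Ω β) := by field_simp
    _ ≤ _ := this

end Line

/-- growth of the norms: lower bound by a set where `|z^γ|² > b` -/
theorem grow {Ω : Set (Fin n → ℂ)} (hΩ : IsOpen Ω) {γ : Fin n → ℤ} {b b' : ℝ} (hb : 0 < b)
    (hbb : b < b') {q : Fin n → ℂ} (hq : q ∈ Ω ∩ star n) (hqb : b' < ‖mon γ q‖ ^ 2)
    {α : Fin n → ℤ} (hα : ∀ k : ℕ, good Ω (α + k • γ)) :
    ∃ k : ℕ, b * AK Ω (α + k • γ) < AK Ω (α + (k + 1) • γ) := by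
  by_contra hcon
  push Not at hcon
  set r : ℕ → ℝ := fun k => AK Ω (α + k • γ) with hr
  have h1 : ∀ k, r k ≤ b ^ k * r 0 := by
    intro k
    induction k with
    | zero => simp
    | succ k ih =>
      calc r (k + 1) ≤ b * r k := hcon k
        _ ≤ b * (b ^ k * r 0) := mul_le_mul_of_nonneg_left ih hb.le
        _ = b ^ (k + 1) * r 0 := by ring
  set U : Set (Fin n → ℂ) := (Ω ∩ star n) ∩ {z | b' < ‖mon γ z‖ ^ 2} with hU
  have hUo : IsOpen U := by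
    have hc : ContinuousOn (fun z => ‖mon γ z‖ ^ 2) (Ω ∩ star n) :=
      (((continuousOn_mon γ).mono inter_subset_right).norm.pow 2)
    exact hc.isOpen_inter_preimage (hΩ.inter isOpen_star) isOpen_Ioi
  have hint0 : Integrable (fun z => ‖mon α z‖ ^ 2) (volume.restrict Ω) := by
    have := good_integrable (hα 0)
    simpa using this
  have hUΩ : U ⊆ Ω := fun z hz => hz.1.1
  set η : ℝ := ∫ z in U, ‖mon α z‖ ^ 2 with hη
  have hηpos : 0 < η := by
    have hi : IntegrableOn (fun z => ‖mon α z‖ ^ 2) U :=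
      (show IntegrableOn (fun z => ‖mon α z‖ ^ 2) Ω volume from hint0).mono_set hUΩ
    rw [hη, setIntegral_pos_iff_support_of_nonneg_ae (Eventually.of_forall fun z => by positivity) hi]
    have h2 : U ⊆ Function.support (fun z => ‖mon α z‖ ^ 2) ∩ U := by
      intro z hz
      exact ⟨pow_ne_zero _ (norm_ne_zero_iff.2 (mon_ne hz.1.2)), hz⟩
    exact lt_of_lt_of_le (hUo.measure_pos volume ⟨q, hq, hqb⟩) (measure_mono h2)
  have h3 : ∀ k, b' ^ k * η ≤ r k := by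
    intro k
    have hik := good_integrable (hα k)
    have h4 : ∫ z in U, ‖mon (α + k • γ) z‖ ^ 2 ≤ r k :=
      setIntegral_mono_set hik (Eventually.of_forall fun z => by positivity)
        (Eventually.of_forall hUΩ)
    refine le_trans ?_ h4
    rw [hη, ← integral_const_mul]
    have hi : IntegrableOn (fun z => ‖mon α z‖ ^ 2) U :=
      (show IntegrableOn (fun z => ‖mon α z‖ ^ 2) Ω volume from hint0).mono_set hUΩ
    have hik' : IntegrableOn (fun z => ‖mon (α + k • γ) z‖ ^ 2) U :=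
      (show IntegrableOn (fun z => ‖mon (α + k • γ) z‖ ^ 2) Ω volume from hik).mono_set hUΩ
    refine setIntegral_mono_on (hi.const_mul _) hik' hUo.measurableSet fun z hz => ?_
    have h5 : ∀ m : ℕ, ‖mon (α + m • γ) z‖ ^ 2 = (‖mon γ z‖ ^ 2) ^ m * ‖mon α z‖ ^ 2 := by
      intro m
      induction m with
      | zero => simp
      | succ m ih =>
        rw [succ_nsmul, ← add_assoc, sq_mon_add hz.1.2, ih]
        ring
    rw [h5 k]
    apply mul_le_mul_of_nonneg_right _ (by positivity)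
    exact pow_le_pow_left₀ (by linarith) (le_of_lt hz.2) k
  have h6 : ∀ k : ℕ, (b' / b) ^ k * η ≤ r 0 := by
    intro k
    have := (h3 k).trans (h1 k)
    rw [div_pow, div_mul_eq_mul_div, div_le_iff₀ (by positivity)]
    linarith
  have h7 : 1 < b' / b := by rw [one_lt_div hb]; exact hbb
  obtain ⟨k, hk⟩ := pow_unbounded_of_one_lt (r 0 / η) h7
  have := h6 k
  rw [div_lt_iff₀ hηpos] at hk
  linarith

theorem shrink {Ω : Set (Fin n → ℂ)} (hΩ : IsOpen Ω) {γ : Fin n → ℤ} {a a' : ℝ} (ha : 0 < a')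
    (haa : a' < a) {q : Fin n → ℂ} (hq : q ∈ Ω ∩ star n) (hqb : ‖mon γ q‖ ^ 2 < a')
    {α : Fin n → ℤ} (hα : ∀ k : ℕ, good Ω (α - k • γ)) :
    ∃ k : ℕ, AK Ω (α - k • γ) < a * AK Ω (α - (k + 1) • γ) := by
  have hinv : ∀ z : Fin n → ℂ, z ∈ star n → ‖mon (-γ) z‖ ^ 2 * ‖mon γ z‖ ^ 2 = 1 := by
    intro z hz
    rw [← mul_pow, ← norm_mul, ← mon_add hz, neg_add_cancel, mon_zero, norm_one, one_pow]
  have hx := hinv q hq.2
  have hp : 0 < ‖mon γ q‖ ^ 2 := pow_pos (norm_pos_iff.2 (mon_ne hq.2)) 2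
  have h1 := grow hΩ (γ := -γ) (b := a⁻¹) (b' := a'⁻¹) (q := q) (by
    have : 0 < a := ha.trans haa
    positivity) ((inv_lt_inv₀ (ha.trans haa) ha).2 haa) hq (by
      have : ‖mon (-γ) q‖ ^ 2 = (‖mon γ q‖ ^ 2)⁻¹ := eq_inv_of_mul_eq_one_left hx
      rw [this, inv_lt_inv₀ ha hp]
      exact hqb) (α := α) (fun k => by
        have e : α + k • (-γ) = α - k • γ := by rw [smul_neg, ← sub_eq_add_neg]
        rw [e]; exact hα k)
  obtain ⟨k, hk⟩ := h1
  refine ⟨k, ?_⟩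
  have e : ∀ k : ℕ, α + k • (-γ) = α - k • γ := fun k => by rw [smul_neg, ← sub_eq_add_neg]
  rw [e, e] at hk
  have : 0 < a := ha.trans haa
  rwa [inv_mul_lt_iff₀ this] at hk

end Pool.Agent.Q173.HS
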