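import Mathlib

/-!
# The torus action on `ℂⁿ` and monomials
-/

set_option autoImplicit false

open MeasureTheory Complex Filter Topology Metric Set
open scoped ComplexConjugate

namespace Pool.Agent.Q173.HS

variable {n : ℕ}

/-- the torus `(ℝ/ℤ)ⁿ` -/
abbrev G (n : ℕ) := Fin n → UnitAddCircle

/-- normalised Haar measure of the torus -/
noncomputable def muG (n : ℕ) : Measure (G n) := Measure.pi fun _ => AddCircle.haarAddCircle

instance : IsProbabilityMeasure (muG n) := by unfold muG; infer_instance

instance : (muG n).IsAddRightInvariant := by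
  unfold muG; infer_instance

/-- unit complex number attached to a point of the circle -/
noncomputable def ee (t : UnitAddCircle) : ℂ := fourier 1 t

theorem ee_norm (t : UnitAddCircle) : ‖ee t‖ = 1 := by
  unfold ee
  rw [fourier_apply]
  exact Circle.norm_coe _

theorem ee_ne (t : UnitAddCircle) : ee t ≠ 0 := by
  intro h
  have := ee_norm t
  rw [h, norm_zero] at this
  norm_num at this

theorem ee_add (s t : UnitAddCircle) : ee (s + t) = ee s * ee t := by
  unfold ee
  rw [fourier_apply, fourier_apply, fourier_apply, one_zsmul, one_zsmul, one_zsmul,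
    AddCircle.toCircle_add, Circle.coe_mul]

theorem ee_coe (x : ℝ) : ee (x : UnitAddCircle) = exp (2 * Real.pi * I * x) := by
  unfold ee
  rw [fourier_coe_apply]
  congr 1
  push_cast
  ring

theorem ee_zero : ee 0 = 1 := by
  have := ee_coe 0
  simpa using this

theorem continuous_ee : Continuous ee := (fourier 1).continuous

/-- the action of the torus -/
noncomputable def rot (t : G n) (z : Fin n → ℂ) : Fin n → ℂ := fun j => ee (t j) * z j

theorem continuous_rot : Continuous fun p : G n × (Fin n → ℂ) => rot p.1 p.2 := by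
  refine continuous_pi fun j => ?_
  unfold rot
  exact (continuous_ee.comp ((continuous_apply j).comp continuous_fst)).mul
    ((continuous_apply j).comp continuous_snd)

theorem rot_add (s t : G n) (z : Fin n → ℂ) : rot (s + t) z = rot s (rot t z) := by
  funext j
  simp only [rot, Pi.add_apply, ee_add]
  ring

theorem rot_zero (z : Fin n → ℂ) : rot 0 z = z := by
  funext j
  simp only [rot, Pi.zero_apply, ee_zero, one_mul]

/-- the action as a linear isometry equivalence -/
noncomputable def rotL (t : G n) : (Fin n → ℂ) →L[ℂ] (Fin n → ℂ) :=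
  ContinuousLinearMap.pi fun j => (ee (t j)) • ContinuousLinearMap.proj j

theorem rotL_apply (t : G n) (z : Fin n → ℂ) : rotL t z = rot t z := by
  funext j
  simp [rotL, rot]

theorem norm_rot_coord (t : G n) (z : Fin n → ℂ) (j : Fin n) : ‖rot t z j‖ = ‖z j‖ := by
  unfold rot
  rw [norm_mul, ee_norm, one_mul]

theorem norm_rot (t : G n) (z : Fin n → ℂ) : ‖rot t z‖ = ‖z‖ := by
  simp only [Pi.norm_def, nnnorm]
  congr 2
  funext j
  apply Subtype.ext
  exact norm_rot_coord t z j

theorem dist_rot (t : G n) (z w : Fin n → ℂ) : dist (rot t z) (rot t w) = dist z w := by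
  rw [dist_eq_norm, dist_eq_norm, ← norm_rot t (z - w)]
  congr 1
  funext j
  simp only [rot, Pi.sub_apply]
  ring

theorem rotL_norm_le (t : G n) : ‖rotL t‖ ≤ 1 := by
  refine ContinuousLinearMap.opNorm_le_bound _ zero_le_one fun z => ?_
  rw [rotL_apply, norm_rot, one_mul]

theorem continuous_rotL : Continuous fun t : G n => rotL t := by
  rw [continuous_clm_apply]
  intro z
  simp only [rotL_apply]
  exact continuous_rot.comp (continuous_id.prodMk continuous_const)

theorem measurePreserving_rot (t : G n) :
    MeasurePreserving (rot t) (volume : Measure (Fin n → ℂ)) volume := by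
  have h1 : ∀ j : Fin n, MeasurePreserving (fun w : ℂ => ee (t j) * w) volume volume := by
    intro j
    have h2 := (rotation ⟨ee (t j), by
      rw [Submonoid.unitSphere]; simp [ee_norm]⟩).measurePreserving
    exact h2
  exact volume_preserving_pi h1

theorem measurableEmbedding_rot (t : G n) : MeasurableEmbedding (rot t) := by
  let e : (Fin n → ℂ) ≃ₜ (Fin n → ℂ) :=
    { toFun := rot t
      invFun := rot (-t)
      left_inv := fun z => by rw [← rot_add, neg_add_cancel, rot_zero]
      right_inv := fun z => by rw [← rot_add, add_neg_cancel, rot_zero]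
      continuous_toFun := continuous_rot.comp (continuous_const.prodMk continuous_id)
      continuous_invFun := continuous_rot.comp (continuous_const.prodMk continuous_id) }
  exact e.measurableEmbedding

/-- sets invariant under the torus action -/
def Inv (Ω : Set (Fin n → ℂ)) : Prop := ∀ t : G n, ∀ z ∈ Ω, rot t z ∈ Ω

theorem Inv.iff {Ω : Set (Fin n → ℂ)} (h : Inv Ω) (t : G n) (z : Fin n → ℂ) :
    rot t z ∈ Ω ↔ z ∈ Ω := by
  constructor
  · intro hz
    have := h (-t) _ hz
    rwa [← rot_add, neg_add_cancel, rot_zero] at this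
  · exact h t z

theorem Inv.preimage {Ω : Set (Fin n → ℂ)} (h : Inv Ω) (t : G n) : rot t ⁻¹' Ω = Ω := by
  ext z
  exact h.iff t z

theorem setIntegral_rot {K : Set (Fin n → ℂ)} (hK : Inv K) (t : G n) (φ : (Fin n → ℂ) → ℂ) :
    ∫ z in K, φ (rot t z) = ∫ z in K, φ z := by
  have h := (measurePreserving_rot t).setIntegral_preimage_emb (measurableEmbedding_rot t) φ K
  rwa [hK.preimage] at h

/-- the character of the torus -/
noncomputable def chi (β : Fin n → ℤ) (t : G n) : ℂ := UnitAddTorus.mFourier β t

theorem chi_eq (β : Fin n → ℤ) (t : G n) : chi β t = ∏ j, ee (t j) ^ β j := by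
  unfold chi UnitAddTorus.mFourier ee
  simp only [ContinuousMap.coe_mk, fourier_apply, one_zsmul]
  refine Finset.prod_congr rfl fun j _ => ?_
  rw [AddCircle.toCircle_zsmul, Circle.coe_zpow]

theorem continuous_chi (β : Fin n → ℤ) : Continuous (chi β) :=
  (UnitAddTorus.mFourier β).continuous

theorem chi_neg (β : Fin n → ℤ) (t : G n) : chi (-β) t = conj (chi β t) :=
  UnitAddTorus.mFourier_neg

theorem chi_add (β : Fin n → ℤ) (s t : G n) : chi β (s + t) = chi β s * chi β t := by
  simp only [chi_eq, Pi.add_apply, ee_add, mul_zpow, Finset.prod_mul_distrib]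

theorem chi_mul (β γ : Fin n → ℤ) (t : G n) : chi (β + γ) t = chi β t * chi γ t :=
  UnitAddTorus.mFourier_add

theorem chi_norm (β : Fin n → ℤ) (t : G n) : ‖chi β t‖ = 1 := by
  rw [chi_eq, norm_prod]
  simp [ee_norm]

theorem chi_conj_mul (β : Fin n → ℤ) (t : G n) : conj (chi β t) * chi β t = 1 := by
  rw [mul_comm, mul_conj, normSq_eq_norm_sq, chi_norm]
  norm_num

/-- Laurent monomials -/
noncomputable def mon (β : Fin n → ℤ) (z : Fin n → ℂ) : ℂ := ∏ j, z j ^ β j

theorem mon_rot (β : Fin n → ℤ) (t : G n) (z : Fin n → ℂ) :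
    mon β (rot t z) = chi β t * mon β z := by
  unfold mon rot
  rw [chi_eq, ← Finset.prod_mul_distrib]
  simp only [mul_zpow]

/-- the points all of whose coordinates are nonzero -/
def star (n : ℕ) : Set (Fin n → ℂ) := {z | ∀ j, z j ≠ 0}

theorem mon_add {β γ : Fin n → ℤ} {z : Fin n → ℂ} (hz : z ∈ star n) :
    mon (β + γ) z = mon β z * mon γ z := by
  unfold mon
  rw [← Finset.prod_mul_distrib]
  refine Finset.prod_congr rfl fun j _ => ?_
  rw [Pi.add_apply, zpow_add₀ (hz j)]

theorem mon_ne {β : Fin n → ℤ} {z : Fin n → ℂ} (hz : z ∈ star n) : mon β z ≠ 0 :=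
  Finset.prod_ne_zero_iff.2 fun j _ => zpow_ne_zero _ (hz j)

theorem mon_zero (z : Fin n → ℂ) : mon (0 : Fin n → ℤ) z = 1 := by
  simp [mon]

theorem isOpen_star : IsOpen (star n) := by
  have : star n = ⋂ j, {z : Fin n → ℂ | z j ≠ 0} := by
    ext z; simp [star]
  rw [this]
  exact isOpen_iInter_of_finite fun j => isOpen_ne_fun (continuous_apply j) continuous_const

theorem volume_star_compl : volume (star n)ᶜ = 0 := by
  have : (star n)ᶜ = ⋃ j, {z : Fin n → ℂ | z j = 0} := by
    ext z; simp [star]
  rw [this, measure_iUnion_null_iff]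
  intro j
  exact Measure.pi_hyperplane (fun _ : Fin n => (volume : Measure ℂ)) j 0

theorem star_ae : ∀ᵐ z : Fin n → ℂ, z ∈ star n := by
  rw [ae_iff]
  exact volume_star_compl

theorem inv_star : Inv (star n) := fun t z hz j => mul_ne_zero (ee_ne _) (hz j)

theorem measurable_mon (β : Fin n → ℤ) : Measurable (mon β) := by
  unfold mon
  exact Finset.measurable_prod _ fun j _ => (measurable_pi_apply j).pow_const _

theorem continuousOn_mon (β : Fin n → ℤ) : ContinuousOn (mon β) (star n) := by
  unfold mon
  refine continuousOn_finsetProd _ fun j _ => ?_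
  exact (continuous_apply j).continuousOn.zpow₀ _ fun z hz => Or.inl (hz j)

end Pool.Agent.Q173.HS
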