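import Pool.Agent.Q173.HS.Torus
import Pool.Agent.Helper853.Bk.Scv

/-!
# Weight components of holomorphic functions on Reinhardt domains
-/

set_option autoImplicit false

open MeasureTheory Complex Filter Topology Metric Set
open scoped ComplexConjugate

namespace Pool.Agent.Q173.HS

variable {n : ℕ}

/-- identity theorem for holomorphic functions on a connected open set -/
theorem identity {E : Type*} [NormedAddCommGroup E] [NormedSpace ℂ E] {Ω : Set E}
    (hΩ : IsOpen Ω) (hc : IsPreconnected Ω) {u : E → ℂ} (hu : DifferentiableOn ℂ u Ω) {p : E}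
    (hp : p ∈ Ω) (h : ∀ᶠ z in 𝓝 p, u z = 0) : ∀ z ∈ Ω, u z = 0 := by
  set S : Set E := {z | ∀ᶠ w in 𝓝 z, u w = 0} with hS
  have hSo : IsOpen S := isOpen_setOfPred_eventually_nhds
  have hsub : Ω ⊆ S := by
    apply hc.subset_of_closure_inter_subset hSo ⟨p, hp, h⟩
    rintro z ⟨hz1, hz2⟩
    obtain ⟨r, hr, hball⟩ := Metric.isOpen_iff.1 hΩ z hz2
    obtain ⟨y, hyS, hyz⟩ := Metric.mem_closure_iff.1 hz1 r hr
    rw [dist_comm] at hyz
    have key : ∀ w ∈ ball z r, u w = 0 := by
      intro w hw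
      set l : ℂ → E := fun τ => y + τ • (w - y) with hl
      have hlc : Continuous l := by fun_prop
      set V : Set ℂ := l ⁻¹' ball z r with hV
      have hVo : IsOpen V := isOpen_ball.preimage hlc
      have hVc : IsPreconnected V := by
        apply Convex.isPreconnected
        intro a ha b hb s t hs ht hst
        have h1 : l (s • a + t • b) = s • l a + t • l b := by
          simp only [hl, smul_add, add_smul, smul_assoc]
          generalize w - y = v
          rw [show s • y + s • a • v + (t • y + t • b • v) =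
            (s • y + t • y) + (s • a • v + t • b • v) by abel, ← add_smul, hst, one_smul]
        change l (s • a + t • b) ∈ ball z r
        rw [h1]
        exact convex_ball z r ha hb hs ht hst
      have h0V : (0 : ℂ) ∈ V := by
        change l 0 ∈ ball z r
        simp only [hl, zero_smul, add_zero]
        exact hyz
      have h1V : (1 : ℂ) ∈ V := by
        change l 1 ∈ ball z r
        simp only [hl, one_smul, add_sub_cancel]
        exact hw
      have hd : DifferentiableOn ℂ (fun τ => u (l τ)) V := by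
        refine hu.comp ?_ (fun τ hτ => hball hτ)
        simp only [hl]
        fun_prop
      have han := hd.analyticOnNhd hVo
      have h0 : ∀ᶠ τ in 𝓝 (0 : ℂ), u (l τ) = 0 := by
        have h2 : Tendsto l (𝓝 0) (𝓝 y) := by
          have := hlc.tendsto 0
          simpa [hl] using this
        exact h2.eventually hyS
      have h3 := han.eqOn_zero_of_preconnected_of_eventuallyEq_zero hVc h0V h0 h1V
      simpa [hl] using h3
    exact Filter.eventually_of_mem (ball_mem_nhds z hr) key
  intro z hz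
  exact (hsub hz).self_of_nhds

/-- weight components -/
noncomputable def av (β : Fin n → ℤ) (a : (Fin n → ℂ) → ℂ) (z : Fin n → ℂ) : ℂ :=
  ∫ t, chi (-β) t * a (rot t z) ∂(muG n)

theorem av_rot (β : Fin n → ℤ) (a : (Fin n → ℂ) → ℂ) (s : G n) (z : Fin n → ℂ) :
    av β a (rot s z) = chi β s * av β a z := by
  unfold av
  have h1 : ∀ t : G n, chi (-β) t * a (rot t (rot s z)) =
      chi β s * (chi (-β) (t + s) * a (rot (t + s) z)) := by
    intro t
    rw [rot_add, chi_add]
    have : chi β s * (chi (-β) t * chi (-β) s * a (rot t (rot s z))) =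
      (chi (-β) s * chi β s) * (chi (-β) t * a (rot t (rot s z))) := by ring
    rw [this, chi_neg β s, chi_conj_mul, one_mul]
  simp only [h1]
  rw [integral_const_mul]
  congr 1
  exact integral_add_right_eq_self (fun t => chi (-β) t * a (rot t z)) s

theorem differentiableOn_av {Ω : Set (Fin n → ℂ)} (hΩ : IsOpen Ω) (hI : Inv Ω) (β : Fin n → ℤ)
    {a : (Fin n → ℂ) → ℂ} (ha : DifferentiableOn ℂ a Ω) : DifferentiableOn ℂ (av β a) Ω := by
  have hcd : ContDiffOn ℂ 1 a Ω :=
    (Pool.Agent.Helper853.Bk.contDiffOn_of_differentiableOn hΩ ha).of_le (by norm_cast)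
  have hfc : ContinuousOn (fderiv ℂ a) Ω := hcd.continuousOn_fderiv_of_isOpen hΩ le_rfl
  intro z₀ hz₀
  obtain ⟨r, hr, hball⟩ := Metric.isOpen_iff.1 hΩ z₀ hz₀
  have hsub : closedBall z₀ (r / 2) ⊆ Ω :=
    (closedBall_subset_ball (by linarith)).trans hball
  have hcomp : IsCompact ((fun p : G n × (Fin n → ℂ) => rot p.1 p.2) ''
      (univ ×ˢ closedBall z₀ (r / 2))) :=
    (isCompact_univ.prod (isCompact_closedBall z₀ (r / 2))).image continuous_rot
  have hKsub : (fun p : G n × (Fin n → ℂ) => rot p.1 p.2) ''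
      (univ ×ˢ closedBall z₀ (r / 2)) ⊆ Ω := by
    rintro _ ⟨⟨t, z⟩, ⟨-, hz⟩, rfl⟩
    exact hI t z (hsub hz)
  obtain ⟨M, hM⟩ := hcomp.exists_bound_of_continuousOn (hfc.mono hKsub)
  have hcont : ∀ z ∈ Ω, Continuous fun t : G n => a (rot t z) := by
    intro z hz
    exact ha.continuousOn.comp_continuous (continuous_rot.comp (continuous_id.prodMk
      continuous_const)) fun t => hI t z hz
  have key := hasFDerivAt_integral_of_dominated_of_fderiv_le (𝕜 := ℂ) (μ := muG n)
    (F := fun z t => chi (-β) t * a (rot t z))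
    (F' := fun z t => chi (-β) t • (fderiv ℂ a (rot t z)).comp (rotL t)) (x₀ := z₀)
    (s := ball z₀ (r / 2)) (bound := fun _ => M) (ball_mem_nhds z₀ (by positivity)) ?_ ?_ ?_ ?_ ?_ ?_
  · exact key.differentiableAt.differentiableWithinAt
  · filter_upwards [hΩ.mem_nhds hz₀] with z hz
    exact ((continuous_chi (-β)).mul (hcont z hz)).aestronglyMeasurable
  · have hc : Continuous fun t : G n => chi (-β) t * a (rot t z₀) :=
      (continuous_chi (-β)).mul (hcont z₀ hz₀)
    exact hc.integrable_of_hasCompactSupport (HasCompactSupport.of_compactSpace _)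
  · have h1 : Continuous fun t : G n => fderiv ℂ a (rot t z₀) :=
      hfc.comp_continuous (continuous_rot.comp (continuous_id.prodMk
        continuous_const)) fun t => hI t z₀ hz₀
    exact ((continuous_chi (-β)).smul (h1.clm_comp continuous_rotL)).aestronglyMeasurable
  · refine Eventually.of_forall fun t z hz => ?_
    rw [norm_smul, chi_norm, one_mul]
    refine (ContinuousLinearMap.opNorm_comp_le _ _).trans ?_
    have h1 := hM (rot t z) ⟨(t, z), ⟨mem_univ _, ball_subset_closedBall hz⟩, rfl⟩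
    calc ‖fderiv ℂ a (rot t z)‖ * ‖rotL t‖ ≤ ‖fderiv ℂ a (rot t z)‖ * 1 :=
          mul_le_mul_of_nonneg_left (rotL_norm_le t) (norm_nonneg _)
      _ ≤ M := by rw [mul_one]; exact h1
  · exact integrable_const _
  · refine Eventually.of_forall fun t z hz => ?_
    have hzΩ : z ∈ Ω := hsub (ball_subset_closedBall hz)
    have h1 : HasFDerivAt a (fderiv ℂ a (rot t z)) (rotL t z) := by
      rw [rotL_apply]
      exact (ha.differentiableAt (hΩ.mem_nhds (hI t z hzΩ))).hasFDerivAt
    have h2 := h1.comp z (rotL t).hasFDerivAt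
    have h3 := h2.const_mul (chi (-β) t)
    refine h3.congr_of_eventuallyEq (Eventually.of_forall fun w => ?_)
    simp only [Function.comp, rotL_apply]

/-- rotating one coordinate -/
theorem rot_single (j : Fin n) (τ : ℝ) (z : Fin n → ℂ) :
    rot (Pi.single j (τ : UnitAddCircle)) z =
      z + ((exp (2 * Real.pi * I * τ) - 1) * z j) • (Pi.single j 1 : Fin n → ℂ) := by
  funext i
  simp only [rot, Pi.add_apply, Pi.smul_apply, smul_eq_mul]
  by_cases h : i = j
  · subst h
    rw [Pi.single_eq_same, Pi.single_eq_same, ee_coe]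
    ring
  · rw [Pi.single_eq_of_ne h, Pi.single_eq_of_ne h, ee_zero]
    ring

/-- invariant holomorphic functions are locally constant off the coordinate hyperplanes -/
theorem fderiv_zero_of_inv {q : (Fin n → ℂ) → ℂ} {z : Fin n → ℂ} (hz : z ∈ star n)
    (hd : DifferentiableAt ℂ q z) (hq : ∀ t : G n, q (rot t z) = q z) : fderiv ℂ q z = 0 := by
  have h0 : ∀ j : Fin n, fderiv ℂ q z (Pi.single j 1) = 0 := by
    intro j
    set c : ℝ → (Fin n → ℂ) := fun τ =>
      z + ((exp (2 * Real.pi * I * τ) - 1) * z j) • (Pi.single j 1 : Fin n → ℂ) with hc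
    have hc0 : c 0 = z := by simp [hc]
    have hcd : HasDerivAt c ((2 * Real.pi * I * z j) • (Pi.single j 1 : Fin n → ℂ)) 0 := by
      have h1 : HasDerivAt (fun τ : ℝ => exp (2 * Real.pi * I * τ)) (2 * Real.pi * I) 0 := by
        have h2 : HasDerivAt (fun τ : ℝ => 2 * Real.pi * I * (τ : ℂ)) (2 * Real.pi * I) 0 := by
          have h3 : HasDerivAt (fun τ : ℝ => (τ : ℂ)) 1 0 := ofRealCLM.hasDerivAt
          simpa using h3.const_mul (2 * Real.pi * I : ℂ)
        have h4 := h2.cexp
        simpa using h4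
      have h5 := ((h1.sub_const 1).mul_const (z j)).smul_const (Pi.single j 1 : Fin n → ℂ)
      have h6 := h5.const_add z
      exact h6
    have h1 : HasFDerivAt q (fderiv ℂ q z) (c 0) := by
      rw [hc0]; exact hd.hasFDerivAt
    have h2 : HasDerivAt (q ∘ c) ((fderiv ℂ q z).restrictScalars ℝ
        ((2 * Real.pi * I * z j) • (Pi.single j 1 : Fin n → ℂ))) 0 :=
      (h1.restrictScalars ℝ).comp_hasDerivAt 0 hcd
    have h3 : q ∘ c = fun _ => q z := by
      funext τ
      have := hq (Pi.single j (τ : UnitAddCircle))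
      rw [rot_single] at this
      exact this
    rw [h3] at h2
    have h4 := h2.unique (hasDerivAt_const (0 : ℝ) (q z))
    rw [ContinuousLinearMap.coe_restrictScalars', map_smul, smul_eq_mul] at h4
    rcases mul_eq_zero.1 h4 with h5 | h5
    · exfalso
      have h6 : (2 * (Real.pi : ℂ) * I) ≠ 0 := by
        simp [Real.pi_ne_zero]
      exact mul_ne_zero h6 (hz j) h5
    · exact h5
  ext v
  have hv : v = ∑ j, v j • (Pi.single j 1 : Fin n → ℂ) := by
    funext i
    simp [Finset.sum_apply, Pi.single_apply]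
  rw [hv, map_sum]
  simp only [map_smul, h0, smul_zero, Finset.sum_const_zero]
  rfl

/-- monomials with natural exponents -/
noncomputable def pm (k : Fin n → ℕ) (z : Fin n → ℂ) : ℂ := ∏ j, z j ^ k j

theorem differentiable_pm (k : Fin n → ℕ) : Differentiable ℂ (pm k) := by
  unfold pm
  fun_prop

/-- positive and negative parts of exponents -/
def pos (β : Fin n → ℤ) : Fin n → ℕ := fun j => (β j).toNat
def neg (β : Fin n → ℤ) : Fin n → ℕ := fun j => (-β j).toNat

theorem mon_pm {β : Fin n → ℤ} {z : Fin n → ℂ} (hz : z ∈ star n) :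
    mon β z * pm (neg β) z = pm (pos β) z := by
  unfold mon pm neg pos
  rw [← Finset.prod_mul_distrib]
  refine Finset.prod_congr rfl fun j _ => ?_
  rw [← zpow_natCast, ← zpow_natCast, ← zpow_add₀ (hz j)]
  congr 1
  omega

theorem pm_ne {k : Fin n → ℕ} {z : Fin n → ℂ} (hz : z ∈ star n) : pm k z ≠ 0 :=
  Finset.prod_ne_zero_iff.2 fun j _ => pow_ne_zero _ (hz j)

theorem differentiableAt_mon (β : Fin n → ℤ) {z : Fin n → ℂ} (hz : ∀ j, z j ≠ 0 ∨ 0 ≤ β j) :
    DifferentiableAt ℂ (mon β) z := by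
  unfold mon
  have h : ∀ j ∈ (Finset.univ : Finset (Fin n)),
      DifferentiableAt ℂ (fun z : Fin n → ℂ => z j ^ β j) z := fun j _ =>
    (differentiableAt_apply j z).zpow (hz j)
  exact (HasFDerivAt.finsetProd fun j hj => (h j hj).hasFDerivAt).differentiableAt

theorem exists_star {Ω : Set (Fin n → ℂ)} (hΩ : IsOpen Ω) (hne : Ω.Nonempty) :
    (Ω ∩ star n).Nonempty := by
  by_contra h
  rw [Set.not_nonempty_iff_eq_empty] at h
  have h1 : Ω ⊆ (star n)ᶜ := fun z hz hz2 => by
    have : z ∈ Ω ∩ star n := ⟨hz, hz2⟩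
    rw [h] at this
    exact this
  have h2 : volume Ω = 0 := measure_mono_null h1 volume_star_compl
  exact (hΩ.measure_pos volume hne).ne' h2

/-- a holomorphic function of weight `β` on a Reinhardt domain is a multiple of `z^β` -/
theorem weight_struct {Ω : Set (Fin n → ℂ)} (hΩ : IsOpen Ω) (hc : IsConnected Ω) (hI : Inv Ω)
    (β : Fin n → ℤ) {u : (Fin n → ℂ) → ℂ} (hu : DifferentiableOn ℂ u Ω)
    (hw : ∀ t : G n, ∀ z ∈ Ω, u (rot t z) = chi β t * u z) :
    ∃ c : ℂ, ∀ z ∈ Ω, u z * pm (neg β) z = c * pm (pos β) z := by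
  obtain ⟨p, hpΩ, hps⟩ := exists_star hΩ hc.nonempty
  obtain ⟨r, hr, hball⟩ := Metric.isOpen_iff.1 (hΩ.inter isOpen_star) p ⟨hpΩ, hps⟩
  set q : (Fin n → ℂ) → ℂ := fun z => u z * mon (-β) z with hq
  have hqd : ∀ z ∈ ball p r, DifferentiableAt ℂ q z := by
    intro z hz
    have hz' := hball hz
    exact (hu.differentiableAt (hΩ.mem_nhds hz'.1)).mul
      (differentiableAt_mon _ fun j => Or.inl (hz'.2 j))
  have hf0 : ∀ z ∈ ball p r, fderiv ℂ q z = 0 := by
    intro z hz
    have hz' := hball hz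
    refine fderiv_zero_of_inv hz'.2 (hqd z hz) fun t => ?_
    simp only [hq]
    rw [hw t z hz'.1, mon_rot, chi_neg]
    have : chi β t * u z * (conj (chi β t) * mon (-β) z) =
      (conj (chi β t) * chi β t) * (u z * mon (-β) z) := by ring
    rw [this, chi_conj_mul, one_mul]
  have hqd' : DifferentiableOn ℂ q (ball p r) := fun z hz => (hqd z hz).differentiableWithinAt
  have hconst : ∀ z ∈ ball p r, q z = q p := fun z hz =>
    isOpen_ball.is_const_of_fderiv_eq_zero (convex_ball p r).isPreconnected hqd' hf0 hz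
      (mem_ball_self hr)
  set c : ℂ := q p with hcdef
  refine ⟨c, ?_⟩
  have hloc : ∀ᶠ z in 𝓝 p, u z * pm (neg β) z - c * pm (pos β) z = 0 := by
    filter_upwards [ball_mem_nhds p hr] with z hz
    have hz' := hball hz
    have h1 : q z = c := hconst z hz
    have h2 := mon_pm (β := β) hz'.2
    have h3 : mon β z * mon (-β) z = 1 := by
      rw [← mon_add hz'.2, add_neg_cancel, mon_zero]
    rw [← h1, ← h2]
    simp only [hq]
    have h4 : u z * mon (-β) z * (mon β z * pm (neg β) z) =
      (mon β z * mon (-β) z) * (u z * pm (neg β) z) := by ring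
    rw [h4, h3, one_mul, sub_self]
  intro z hz
  have h5 := identity hΩ hc.isPreconnected (u := fun z => u z * pm (neg β) z - c * pm (pos β) z)
    ((hu.mul (differentiable_pm _).differentiableOn).sub
      ((differentiable_pm _).differentiableOn.const_mul c)) hpΩ hloc z hz
  exact sub_eq_zero.1 h5

/-- the monomial `z^β` is holomorphic on `Ω` -/
def Hol (Ω : Set (Fin n → ℂ)) (β : Fin n → ℤ) : Prop := ∀ z ∈ Ω, ∀ j, z j ≠ 0 ∨ 0 ≤ β j

theorem Hol.diff {Ω : Set (Fin n → ℂ)} {β : Fin n → ℤ} (h : Hol Ω β) :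
    DifferentiableOn ℂ (mon β) Ω := fun z hz =>
  (differentiableAt_mon β (h z hz)).differentiableWithinAt

theorem Hol.add {Ω : Set (Fin n → ℂ)} {β γ : Fin n → ℤ} (h : Hol Ω β) (h' : Hol Ω γ) :
    Hol Ω (β + γ) := by
  intro z hz j
  rcases h z hz j with h1 | h1
  · exact Or.inl h1
  rcases h' z hz j with h2 | h2
  · exact Or.inl h2
  · exact Or.inr (add_nonneg h1 h2)

theorem hol_of_coeff {Ω : Set (Fin n → ℂ)} (hΩ : IsOpen Ω) {β : Fin n → ℤ}
    {u : (Fin n → ℂ) → ℂ} {c : ℂ} (hcne : c ≠ 0)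
    (h : ∀ z ∈ Ω, u z * pm (neg β) z = c * pm (pos β) z) : Hol Ω β := by
  intro q hq j
  by_contra hcon
  push Not at hcon
  obtain ⟨hqj, hβ⟩ := hcon
  set d : Fin n → ℂ := fun i => if i ≠ j ∧ q i = 0 then 1 else 0 with hd
  have hcont : Continuous fun δ : ℝ => q + (δ : ℂ) • d := by fun_prop
  have h1 : ∀ᶠ δ : ℝ in 𝓝[>] 0, q + (δ : ℂ) • d ∈ Ω := by
    have h2 : Tendsto (fun δ : ℝ => q + (δ : ℂ) • d) (𝓝 0) (𝓝 (q + ((0 : ℝ) : ℂ) • d)) :=
      hcont.tendsto 0
    simp only [ofReal_zero, zero_smul, add_zero] at h2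
    exact (h2.mono_left nhdsWithin_le_nhds).eventually (hΩ.mem_nhds hq)
  obtain ⟨δ, hδΩ, hδ⟩ := (h1.and self_mem_nhdsWithin).exists
  have hδ0 : (δ : ℂ) ≠ 0 := by
    rw [Ne, ofReal_eq_zero]
    exact (ne_of_gt hδ)
  have h3 := h _ hδΩ
  have h4 : pm (neg β) (q + (δ : ℂ) • d) = 0 := by
    unfold pm
    apply Finset.prod_eq_zero (Finset.mem_univ j)
    have h5 : (q + (δ : ℂ) • d) j = 0 := by
      simp [hd, hqj]
    rw [h5]
    apply zero_pow
    unfold neg
    omega
  rw [h4, mul_zero] at h3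
  have h6 : pm (pos β) (q + (δ : ℂ) • d) ≠ 0 := by
    unfold pm
    rw [Finset.prod_ne_zero_iff]
    intro i _
    by_cases hij : i = j
    · subst hij
      unfold pos
      rw [Int.toNat_of_nonpos hβ.le, pow_zero]
      exact one_ne_zero
    · apply pow_ne_zero
      simp only [Pi.add_apply, Pi.smul_apply, smul_eq_mul, hd]
      by_cases hqi : q i = 0
      · rw [if_pos ⟨hij, hqi⟩, hqi, zero_add, mul_one]
        exact hδ0
      · rw [if_neg (fun hh => hqi hh.2), mul_zero, add_zero]
        exact hqi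
  exact mul_ne_zero hcne h6 h3.symm

/-- the coefficient of `a` at `β` -/
theorem exists_coeff {Ω : Set (Fin n → ℂ)} (hΩ : IsOpen Ω) (hc : IsConnected Ω) (hI : Inv Ω)
    (β : Fin n → ℤ) {a : (Fin n → ℂ) → ℂ} (ha : DifferentiableOn ℂ a Ω) :
    ∃ c : ℂ, (∀ z ∈ Ω ∩ star n, av β a z = c * mon β z) ∧ (c ≠ 0 → Hol Ω β) := by
  obtain ⟨c, h⟩ := weight_struct hΩ hc hI β (differentiableOn_av hΩ hI β ha)
    fun t z _ => av_rot β a t z
  refine ⟨c, ?_, fun hne => hol_of_coeff hΩ hne h⟩
  rintro z ⟨hz, hzs⟩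
  have h1 := h z hz
  rw [← mon_pm hzs, ← mul_assoc] at h1
  exact mul_right_cancel₀ (pm_ne hzs) h1

end Pool.Agent.Q173.HS
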